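import Pool.Agent.Work.MP_0863b8_nt.A.Stmts
import Pool.Agent.Work.MP_0863b8_nt.Bd.B05

/-!
MP_0863b8_nt, block A: assembly (Theorem 7.1 without the numerical recursion): every dyadic
system has label lists and is `OK`.
-/

set_option autoImplicit false

namespace Pool.Agent.MP_0863b8.A

open MeasureTheory Classical

theorem mu_pos (lev : ℕ → ℕ) (ρ : ℝ) (hρ : 0 < ρ) (n : ℕ) (hn : 0 < n) : 0 < mu lev ρ n := by
  unfold mu
  have : (0:ℝ) < n := by exact_mod_cast hn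
  positivity

theorem mu_nonneg (lev : ℕ → ℕ) (ρ : ℝ) (hρ : 0 < ρ) (n : ℕ) : 0 ≤ mu lev ρ n := by
  unfold mu
  positivity

theorem Eg_nonneg (μ : ℕ → ℝ) (n m : ℕ) (hn : 0 ≤ μ n) (hm : 0 ≤ μ m) : 0 ≤ Eg μ n m := by
  unfold Eg
  apply mul_nonneg (by positivity)
  apply le_min <;> positivity

/-- the relevant primes, with the cut off `κ0` -/
noncomputable def pc (P : ℕ) (κ0 : ℝ) (μ : ℕ → ℝ) (p : ℕ → ℕ) (m : ℕ) : ℕ :=
  if (p m).Prime ∧ P < p m ∧ (p m : ℝ) * μ m ≤ κ0 then p m else 0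

theorem pc_eq {P : ℕ} {κ0 : ℝ} {μ : ℕ → ℝ} {p : ℕ → ℕ} {m : ℕ}
    (h : (p m).Prime ∧ P < p m ∧ (p m : ℝ) * μ m ≤ κ0) : pc P κ0 μ p m = p m := if_pos h

theorem pc_cases (P : ℕ) (κ0 : ℝ) (μ : ℕ → ℝ) (p : ℕ → ℕ) (m : ℕ) :
    pc P κ0 μ p m = 0 ∨ ((pc P κ0 μ p m).Prime ∧ P < pc P κ0 μ p m ∧
      (pc P κ0 μ p m : ℝ) * μ m ≤ κ0) := by
  unfold pc
  split_ifs with h
  · exact Or.inr h
  · exact Or.inl rfl

theorem rel_pc {P : ℕ} {κ0 : ℝ} {μ : ℕ → ℝ} {p : ℕ → ℕ} {n m : ℕ} (h : R.Rel p n m)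
    (h2 : (p m).Prime ∧ P < p m ∧ (p m : ℝ) * μ m ≤ κ0) : R.Rel (pc P κ0 μ p) n m := by
  unfold R.Rel at *
  rw [pc_eq h2]
  exact h

theorem rel_ne {p : ℕ → ℕ} {n m : ℕ} (h : R.Rel p n m) : p m ≠ 0 := by
  intro h0
  have := h.2
  rw [h0, Nat.factorization_zero_right, Nat.factorization_zero_right] at this
  omega

/-- the own label of `n`: a tiny label if there is one and `W` is large -/
noncomputable def own (κ0 θ W : ℝ) : Finset (ℕ × ℚ) :=
  if h : 1 / κ0 ≤ W ∧ ∃ ρ : ℚ, Tiny θ W ρ then {(1, h.2.choose)} else ∅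

theorem own_mem {κ0 θ W W0 : ℝ} (hT : ∀ (θ W : ℝ) (ρ ρ' : ℚ), W0 ≤ W → Tiny θ W ρ →
    Tiny θ W ρ' → ρ = ρ') (h0 : W0 ≤ 1 / κ0) (hW : 1 / κ0 ≤ W) {ρ : ℚ} (h : Tiny θ W ρ) :
    (1, ρ) ∈ own κ0 θ W := by
  unfold own
  rw [dif_pos ⟨hW, ρ, h⟩]
  rw [Finset.mem_singleton]
  congr 1
  exact hT θ W _ _ (h0.trans hW) h (Exists.choose_spec (⟨ρ, h⟩ : ∃ ρ : ℚ, Tiny θ W ρ))

theorem labOK_own_union (h67 : S67) {κ0 θ W : ℝ} {q : ℕ} {L : Finset (ℕ × ℚ)} (h0 : 0 < κ0)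
    (hW : 0 < W) (hq : 2 ≤ q) (hL : LabOK κ0 (q * θ) (W / q) L) :
    LabOK κ0 θ W (own κ0 θ W ∪ pull q L) := by
  obtain ⟨h1, h2⟩ := h67 κ0 θ W q L h0 hW hq hL
  unfold own
  split_ifs with h
  · rw [Finset.singleton_union]
    exact h2 _ h.1 h.2.choose_spec
  · rw [Finset.empty_union]
    exact h1

theorem labOK_empty (κ0 θ W : ℝ) : LabOK κ0 θ W ∅ := by
  refine ⟨?_, ?_, ?_⟩ <;> intro x hx <;> simp at hx

theorem pull_empty (q : ℕ) : pull q ∅ = ∅ := by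
  unfold pull
  simp

theorem labOK_own (h67 : S67) {κ0 θ W : ℝ} (h0 : 0 < κ0) (hW : 0 < W) :
    LabOK κ0 θ W (own κ0 θ W) := by
  have := labOK_own_union h67 (θ := θ) (q := 2) (L := ∅) h0 hW le_rfl (labOK_empty _ _ _)
  rwa [pull_empty, Finset.union_empty] at this

/-- the exceptional parts of the overlaps -/
noncomputable def exc (P : ℕ) (μ : ℕ → ℝ) (Z : Finset (ℕ × ℕ)) (S : Finset ℕ) (n m : ℕ) : ℝ :=
  if n ∈ S ∧ m ∈ S then
    (if n = m then 6 * μ n else 0) + (if (n, m) ∈ Z then 6 * Eg μ n m else 0) +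
      (if n ≠ m ∧ Small P μ n m then 6 * Eg μ n m else 0)
  else 0

theorem exc_nonneg (P : ℕ) (μ : ℕ → ℝ) (Z : Finset (ℕ × ℕ)) (S : Finset ℕ)
    (hμ : ∀ n ∈ S, 0 ≤ μ n) (n m : ℕ) : 0 ≤ exc P μ Z S n m := by
  unfold exc
  split_ifs with h
  all_goals try exact le_rfl
  all_goals
    have h1 := hμ n h.1
    have h2 := hμ m h.2
    have h3 := Eg_nonneg μ n m h1 h2
    positivity

theorem sum_exc (P : ℕ) (μ : ℕ → ℝ) (Z : Finset (ℕ × ℕ)) (S : Finset ℕ)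
    (hμ : ∀ n, 0 ≤ μ n) (C5 CZ : ℝ)
    (hZ : ∑ z ∈ Z, Eg μ z.1 z.2 ≤ CZ)
    (h66 : ∑ z ∈ (S ×ˢ S).filter (fun z => z.1 ≠ z.2 ∧ Small P μ z.1 z.2), Eg μ z.1 z.2 ≤
      C5 * ∑ n ∈ S, μ n) :
    ∑ n ∈ S, ∑ m ∈ S, exc P μ Z S n m ≤ 6 * ∑ n ∈ S, μ n + 6 * CZ + 6 * (C5 * ∑ n ∈ S, μ n) := by
  have e0 : ∑ n ∈ S, ∑ m ∈ S, exc P μ Z S n m = ∑ n ∈ S, ∑ m ∈ S,
      ((if n = m then 6 * μ n else 0) + (if (n, m) ∈ Z then 6 * Eg μ n m else 0) +
      (if n ≠ m ∧ Small P μ n m then 6 * Eg μ n m else 0)) := by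
    apply Finset.sum_congr rfl
    intro n hn
    apply Finset.sum_congr rfl
    intro m hm
    unfold exc
    rw [if_pos ⟨hn, hm⟩]
  rw [e0]
  simp only [Finset.sum_add_distrib]
  have e1 : ∑ n ∈ S, ∑ m ∈ S, (if n = m then 6 * μ n else 0) = 6 * ∑ n ∈ S, μ n := by
    rw [Finset.mul_sum]
    apply Finset.sum_congr rfl
    intro n hn
    rw [Finset.sum_ite_eq S n (fun _ => 6 * μ n), if_pos hn]
  have e2 : ∑ n ∈ S, ∑ m ∈ S, (if (n, m) ∈ Z then 6 * Eg μ n m else 0) ≤ 6 * CZ := by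
    rw [← Finset.sum_product' (f := fun n m => if (n, m) ∈ Z then 6 * Eg μ n m else 0),
      ← Finset.sum_filter]
    calc ∑ z ∈ (S ×ˢ S).filter (fun z => (z.1, z.2) ∈ Z), 6 * Eg μ z.1 z.2
        ≤ ∑ z ∈ Z, 6 * Eg μ z.1 z.2 := by
          apply Finset.sum_le_sum_of_subset_of_nonneg
          · intro z hz
            exact (Finset.mem_filter.1 hz).2
          · intro z _ _
            have := Eg_nonneg μ z.1 z.2 (hμ _) (hμ _)
            positivity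
      _ = 6 * ∑ z ∈ Z, Eg μ z.1 z.2 := by rw [Finset.mul_sum]
      _ ≤ 6 * CZ := by linarith
  have e3 : ∑ n ∈ S, ∑ m ∈ S, (if n ≠ m ∧ Small P μ n m then 6 * Eg μ n m else 0) ≤
      6 * (C5 * ∑ n ∈ S, μ n) := by
    rw [← Finset.sum_product' (f := fun n m => if n ≠ m ∧ Small P μ n m then
      6 * Eg μ n m else 0), ← Finset.sum_filter, ← Finset.mul_sum]
    linarith
  linarith [e1, e2, e3]

/-! ### congruences -/

theorem fac_congr {p : ℕ → ℕ} {n m : ℕ} (h : R.key p n = R.key p m) :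
    R.fac p n = R.fac p m := by
  obtain ⟨h1, -, h3⟩ := R.key_eq h
  unfold R.fac
  rw [h1, h3]

theorem muY_congr {p : ℕ → ℕ} (μ : ℕ → ℝ) {n m : ℕ} (h : R.key p n = R.key p m) :
    R.muY p μ n = R.muY p μ m := by
  obtain ⟨h1, -, -⟩ := R.key_eq h
  unfold R.muY
  rw [h1, fac_congr h]

theorem SY_congr {p : ℕ → ℕ} (S : Finset ℕ) {n m : ℕ} (h : R.key p n = R.key p m) :
    R.SY p S n = R.SY p S m := by
  unfold R.SY R.Lset
  rw [h, fac_congr h]

theorem rel_congr {p : ℕ → ℕ} {a n m : ℕ} (h : R.key p n = R.key p m) :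
    R.Rel p a n ↔ R.Rel p a m := by
  obtain ⟨h1, h2, h3⟩ := R.key_eq h
  unfold R.Rel
  rw [h1, h2, h3]

theorem card_SY_lt {p : ℕ → ℕ} {S : Finset ℕ} {m0 n0 : ℕ} (hn0 : n0 ∈ S)
    (hrel : R.Rel p n0 m0) : (R.SY p S m0).card < S.card := by
  unfold R.SY
  refine lt_of_le_of_lt Finset.card_image_le ?_
  apply Finset.card_lt_card
  refine ⟨fun m hm => ?_, fun h => ?_⟩
  · unfold R.Lset at hm
    exact (Finset.mem_filter.1 hm).1
  · have := h hn0
    unfold R.Lset at this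
    have hk := (Finset.mem_filter.1 this).2
    obtain ⟨-, -, h3⟩ := R.key_eq hk
    have := hrel.2
    omega

theorem muY_mu (lev : ℕ → ℕ) (ρ : ℝ) (p : ℕ → ℕ) (m0 : ℕ) :
    R.muY p (mu lev ρ) m0 =
      mu (fun m' => lev (R.fac p m0 * m')) (ρ * p m0 * R.fac p m0) := by
  funext m'
  unfold R.muY mu
  push_cast
  ring

theorem rp_dvd {n m : ℕ} (h : n ∣ m) (hm : m ≠ 0) : rp n ≤ rp m := by
  unfold rp
  apply Finset.sum_le_sum_of_subset_of_nonneg (Nat.primeFactors_mono h hm)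
  intro _ _ _
  positivity

theorem hi_of_dvd {n m r : ℕ} (hn : 0 < n) (hm : 0 < m) (hr : r.Prime)
    (h : n.factorization r = m.factorization r) : ¬ r ∣ cf n m * cf m n := by
  have key : ∀ a b : ℕ, 0 < a → 0 < b → a.factorization r = b.factorization r →
      ¬ r ∣ cf a b := by
    intro a b ha hb hab hd
    unfold cf at hd
    have hg : a.gcd b ∣ a := Nat.gcd_dvd_left a b
    have hc0 : a / a.gcd b ≠ 0 := (Nat.div_pos (Nat.le_of_dvd ha hg)
      (Nat.gcd_pos_of_pos_left _ ha)).ne'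
    have h1 : 0 < (a / a.gcd b).factorization r :=
      hr.factorization_pos_of_dvd hc0 hd
    rw [Nat.factorization_div hg, Nat.factorization_gcd ha.ne' hb.ne'] at h1
    simp only [Finsupp.coe_tsub, Pi.sub_apply, Finsupp.inf_apply, hab, min_self] at h1
    omega
  intro hd
  rcases (Nat.Prime.dvd_mul hr).1 hd with h1 | h1
  · exact key n m hn hm h h1
  · exact key m n hm hn h.symm h1

/-- representatives of the classes -/
noncomputable def rep (p : ℕ → ℕ) (S : Finset ℕ) (i : ℕ × (ℕ →₀ ℕ) × ℕ) : ℕ :=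
  if h : ∃ m ∈ S, R.key p m = i ∧ ∃ n0 ∈ S, R.Rel p n0 m then h.choose else 0

theorem rep_spec {p : ℕ → ℕ} {S : Finset ℕ} {m : ℕ} (hm : m ∈ S)
    (h : ∃ n0 ∈ S, R.Rel p n0 m) :
    rep p S (R.key p m) ∈ S ∧ R.key p (rep p S (R.key p m)) = R.key p m ∧
      ∃ n0 ∈ S, R.Rel p n0 (rep p S (R.key p m)) := by
  have h' : ∃ m' ∈ S, R.key p m' = R.key p m ∧ ∃ n0 ∈ S, R.Rel p n0 m' := ⟨m, hm, rfl, h⟩
  unfold rep
  rw [dif_pos h']
  exact h'.choose_spec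

theorem sys_step (hOV : OvStmt) (h67 : S67) (h68 : S68)
    {P : ℕ} {C1 C6 κ0 CZ C5 W0 : ℝ} (hκ0 : 0 < κ0) (hκ8 : κ0 ≤ 1 / 8) (hCZ : 0 < CZ)
    (hC5 : 0 < C5)
    (hTU : ∀ (θ W : ℝ) (ρ ρ' : ℚ), W0 ≤ W → Tiny θ W ρ → Tiny θ W ρ' → ρ = ρ')
    (hW0 : W0 ≤ 1 / κ0)
    (h62 : ∀ (θ : ℝ) (μ : ℕ → ℝ) (n m b : ℕ) (c : ℤ), 0 < n → 0 < m → n ≠ m →
      0 < μ n → 0 < μ m → Kd μ n m ≤ κ0 → Lbl θ μ n m b c →
      max (μ n / n) (μ m / m) ≤ (Kd μ n m) ^ (-((1:ℝ) / 100)) * min (μ n / n) (μ m / m) →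
        Tiny θ (1 / μ n) ((c : ℚ) / b) ∧ Tiny θ (1 / μ m) ((c : ℚ) / b) ∧
        1 / Kd μ n m ≤ 1 / μ n ∧ 1 / Kd μ n m ≤ 1 / μ m)
    (h65 : ∀ (θ : ℝ) (μ : ℕ → ℝ)
      (Lab : ℕ → Finset (ℕ × ℚ)) (n m q1 b : ℕ) (c : ℤ), 0 < n → 0 < m →
      n ≠ m → 0 < μ n → 0 < μ m → LabOK κ0 θ (1 / μ n) (Lab n) → LabOK κ0 θ (1 / μ m) (Lab m) →
      Kd μ n m ≤ κ0 → Lbl θ μ n m b c → (1, (c : ℚ) / b) ∈ Lab n → (1, (c : ℚ) / b) ∈ Lab m →
      (∀ p : ℕ, p.Prime → p ∣ cf n m * cf m n → p < q1 ∧ (p : ℝ) ≤ (1 / μ n) ^ C6 ∧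
        (p : ℝ) ≤ (1 / μ m) ^ C6) →
      R.ov θ μ (Kof P C6 μ Lab) q1 n m = 0 ∨ Small P μ n m)
    (h66 : ∀ (S : Finset ℕ) (μ : ℕ → ℝ), (∀ n ∈ S, 0 < n ∧ 0 < μ n) →
      ∑ z ∈ (S ×ˢ S).filter (fun z => z.1 ≠ z.2 ∧ Small P μ z.1 z.2), Eg μ z.1 z.2 ≤
        C5 * ∑ n ∈ S, μ n)
    (hCls : ∀ (S : Finset ℕ) (lev : ℕ → ℕ) (ρ θ : ℝ), 0 < ρ →
      (∀ n ∈ S, 0 < n ∧ rp n ≤ C1 ∧ mu lev ρ n ≤ 1 / 8) →
      ∃ (p : ℕ → ℕ) (Z : Finset (ℕ × ℕ)),
        ∑ z ∈ Z, Eg (mu lev ρ) z.1 z.2 ≤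
          CZ * (1 + ∑ n ∈ S, mu lev ρ n) ^ ((1:ℝ) / 4) * ∑ n ∈ S, mu lev ρ n ∧
        ∀ n ∈ S, ∀ m ∈ S, n ≠ m → (n, m) ∉ Z → Kd (mu lev ρ) n m < 1 / 4 →
          Meet θ (mu lev ρ) n m → Kd (mu lev ρ) n m ≤ κ0 ∧
          ((R.Rel p n m ∧ (p m).Prime ∧ P < p m ∧ (p m : ℝ) * mu lev ρ m ≤ κ0) ∨
            (R.Rel p m n ∧ (p n).Prime ∧ P < p n ∧ (p n : ℝ) * mu lev ρ n ≤ κ0) ∨
            Expl C6 θ (mu lev ρ) n m)) :
    ∀ (k : ℕ) (S : Finset ℕ) (lev : ℕ → ℕ) (ρ θ : ℝ), S.card = k → 0 < ρ →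
      (∀ n ∈ S, 0 < n ∧ rp n ≤ C1 ∧ mu lev ρ n ≤ 1 / 8) →
      ∃ Lab : ℕ → Finset (ℕ × ℚ),
        (∀ n ∈ S, LabOK κ0 θ (1 / mu lev ρ n) (Lab n)) ∧
        R.OK P (1 / 8) 48 (6 + 6 * CZ + 6 * C5) θ (mu lev ρ) S (Kof P C6 (mu lev ρ) Lab) := by
  intro k
  induction k using Nat.strong_induction_on with
  | _ k IH =>
  intro S lev ρ θ hcard hρ hS
  obtain ⟨p, Z, hZ, hcl⟩ := hCls S lev ρ θ hρ hS
  set μ := mu lev ρ with hμdef
  have hμ0 : ∀ n, 0 ≤ μ n := fun n => mu_nonneg lev ρ hρ n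
  have hμp : ∀ n ∈ S, 0 < μ n := fun n hn => mu_pos lev ρ hρ n (hS n hn).1
  set p' := pc P κ0 μ p with hp'
  -- the new spaces
  have hnew : ∀ m0 : ℕ, m0 ∈ S → (∃ n0 ∈ S, R.Rel p' n0 m0) →
      ∃ Lab : ℕ → Finset (ℕ × ℚ),
        (∀ n ∈ R.SY p' S m0, LabOK κ0 ((p' m0 : ℝ) * θ) (1 / R.muY p' μ m0 n) (Lab n)) ∧
        R.OK P (1 / 8) 48 (6 + 6 * CZ + 6 * C5) ((p' m0 : ℝ) * θ) (R.muY p' μ m0)
          (R.SY p' S m0) (Kof P C6 (R.muY p' μ m0) Lab) := by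
    intro m0 hm0 ⟨n0, hn0, hrel⟩
    have hpm : (p' m0).Prime ∧ P < p' m0 ∧ (p' m0 : ℝ) * μ m0 ≤ κ0 := by
      rcases pc_cases P κ0 μ p m0 with h | h
      · exact absurd h (rel_ne hrel)
      · exact h
    have hp0 : (0:ℝ) < p' m0 := by exact_mod_cast hpm.1.pos
    have hf0 : 0 < R.fac p' m0 := pow_pos hpm.1.pos _
    have hfR : (0:ℝ) < R.fac p' m0 := by exact_mod_cast hf0
    have hlt := card_SY_lt hn0 hrel
    rw [hcard] at hlt
    rw [hμdef, muY_mu]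
    refine IH _ hlt (R.SY p' S m0) _ _ _ rfl (by positivity) ?_
    rw [← muY_mu, ← hμdef]
    intro n hn
    unfold R.SY at hn
    rw [Finset.mem_image] at hn
    obtain ⟨m, hm, rfl⟩ := hn
    have hmS : m ∈ S := (Finset.mem_filter.1 hm).1
    have hfd := (R.fac_dvd hm).1
    have hm0' := (hS m hmS).1
    refine ⟨Nat.div_pos (Nat.le_of_dvd hm0' hfd) hf0, ?_, ?_⟩
    · exact (rp_dvd (Nat.div_dvd_of_dvd hfd) hm0'.ne').trans (hS m hmS).2.1
    · unfold R.muY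
      rw [R.fac_mul hm]
      have hk : R.key p' m = R.key p' m0 := (Finset.mem_filter.1 hm).2
      obtain ⟨k1, -, -⟩ := R.key_eq hk
      rcases pc_cases P κ0 μ p m with h | h
      · rw [← hp'] at h
        rw [k1] at h
        exact absurd h (rel_ne hrel)
      · rw [← hp', k1] at h
        linarith [h.2.2]
  choose! LabY hLabY using hnew
  set cond : ℕ → Prop := fun n => ∃ n0 ∈ S, R.Rel p' n0 n with hcond
  set rp' : ℕ → ℕ := fun n => rep p' S (R.key p' n) with hrp'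
  set Lab : ℕ → Finset (ℕ × ℚ) := fun n => own κ0 θ (1 / μ n) ∪
    (if cond n then pull (p' n) (LabY (rp' n) (n / R.fac p' n)) else ∅) with hLab
  have hprime : ∀ n, cond n → (p' n).Prime ∧ P < p' n ∧ (p' n : ℝ) * μ n ≤ κ0 := by
    rintro n ⟨n0, -, hrel⟩
    rcases pc_cases P κ0 μ p n with h | h
    · exact absurd h (rel_ne hrel)
    · exact h
  have hrep : ∀ n ∈ S, cond n → rp' n ∈ S ∧ R.key p' (rp' n) = R.key p' n ∧ cond (rp' n) :=
    fun n hn hc => rep_spec hn hc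
  have hmY : ∀ n ∈ S, cond n → R.muY p' μ (rp' n) (n / R.fac p' n) = p' n * μ n := by
    intro n hn hc
    rw [muY_congr μ (hrep n hn hc).2.1]
    unfold R.muY
    have : n ∈ R.Lset p' S n := Finset.mem_filter.2 ⟨hn, rfl⟩
    rw [R.fac_mul this]
  have hLabOK : ∀ n ∈ S, LabOK κ0 θ (1 / μ n) (Lab n) := by
    intro n hn
    have hW : 0 < 1 / μ n := by
      have := hμp n hn
      positivity
    simp only [hLab]
    split_ifs with hc
    · obtain ⟨r1, r2, r3⟩ := hrep n hn hc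
      have hq := hprime n hc
      refine labOK_own_union h67 hκ0 hW hq.1.two_le ?_
      have hmem : n / R.fac p' n ∈ R.SY p' S (rp' n) := by
        unfold R.SY
        rw [Finset.mem_image]
        refine ⟨n, Finset.mem_filter.2 ⟨hn, r2.symm⟩, ?_⟩
        rw [fac_congr r2]
      have := (hLabY (rp' n) r1 r3).1 _ hmem
      rw [hmY n hn hc, (R.key_eq r2).1] at this
      have e : 1 / ((p' n : ℝ) * μ n) = 1 / μ n / (p' n) := by
        rw [div_div, mul_comm]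
      rwa [e] at this
    · rw [Finset.union_empty]
      exact labOK_own h67 hκ0 hW
  refine ⟨Lab, hLabOK, ?_⟩
  refine R.OK.mk θ μ S _ p' (exc P μ Z S)
    (fun m0 => Kof P C6 (R.muY p' μ (rp' m0)) (LabY (rp' m0))) ?_ ?_ ?_ ?_ ?_ ?_ ?_ ?_ ?_
  · -- masses
    intro m hm
    exact ⟨(hS m hm).1, hμp m hm, by linarith [(hS m hm).2.2]⟩
  · intro m _ v r h
    exact h.1
  · intro m _
    rcases pc_cases P κ0 μ p m with h | h
    · exact Or.inl h
    · exact Or.inr ⟨h.1, h.2.1⟩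
  · exact exc_nonneg P μ Z S (fun n _ => hμ0 n)
  · -- the sum of the exceptional parts
    have h1 := sum_exc P μ Z S hμ0 C5 _ hZ (h66 S μ fun n hn => ⟨(hS n hn).1, hμp n hn⟩)
    refine h1.trans ?_
    have hM0 : 0 ≤ ∑ n ∈ S, μ n := Finset.sum_nonneg fun n _ => hμ0 n
    have hmass : R.mass μ S = 2 * ∑ n ∈ S, μ n := by
      unfold R.mass
      rw [Finset.mul_sum]
    rw [hmass]
    set M := ∑ n ∈ S, μ n with hM
    have e1 : (2:ℝ) * (1 / 8) = 1 / 4 := by norm_num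
    rw [e1]
    have h2 : (1:ℝ) ≤ (1 + M) ^ ((1:ℝ) / 4) := Real.one_le_rpow (by linarith) (by norm_num)
    have h3 : (1 + M) ^ ((1:ℝ) / 4) ≤ (1 + 2 * M) ^ ((1:ℝ) / 4) :=
      Real.rpow_le_rpow (by linarith) (by linarith) (by norm_num)
    set A := (1 + M) ^ ((1:ℝ) / 4) with hA
    set B := (1 + 2 * M) ^ ((1:ℝ) / 4) with hB
    have h4 : M ≤ B * (2 * M) := by nlinarith
    have h5 : A * M ≤ B * (2 * M) := by
      have := mul_le_mul_of_nonneg_right h3 hM0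
      nlinarith
    calc 6 * M + 6 * (CZ * A * M) + 6 * (C5 * M)
        = 6 * M + 6 * CZ * (A * M) + 6 * C5 * M := by ring
      _ ≤ 6 * (B * (2 * M)) + 6 * CZ * (B * (2 * M)) + 6 * C5 * (B * (2 * M)) := by
          have h6 := mul_le_mul_of_nonneg_left h5 (by positivity : 0 ≤ 6 * CZ)
          have h7 := mul_le_mul_of_nonneg_left h4 (by positivity : 0 ≤ 6 * C5)
          linarith
      _ = (6 + 6 * CZ + 6 * C5) * B * (2 * M) := by ring
  · -- the pairs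
    intro q n hn m hm hag hr1 hr2
    have hn0 := (hS n hn).1
    have hm0 := (hS m hm).1
    have hμn := hμp n hn
    have hμm := hμp m hm
    obtain ⟨o1, o2, o3, o4⟩ := hOV θ μ (Kof P C6 μ Lab) q n m hn0 hm0 hμn hμm
    have he0 := Eg_nonneg μ n m hμn.le hμm.le
    have hexc : exc P μ Z S n m = (if n = m then 6 * μ n else 0) +
        (if (n, m) ∈ Z then 6 * Eg μ n m else 0) +
        (if n ≠ m ∧ Small P μ n m then 6 * Eg μ n m else 0) := by
      unfold exc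
      rw [if_pos ⟨hn, hm⟩]
    have hpos : 0 ≤ 48 * (2 * μ n * (2 * μ m)) := by positivity
    by_cases hnm : n = m
    · subst hnm
      rw [hexc, if_pos rfl]
      have h1 : 0 ≤ (if (n, n) ∈ Z then 6 * Eg μ n n else 0) := by
        split_ifs
        · positivity
        · exact le_rfl
      have h2 : 0 ≤ (if n ≠ n ∧ Small P μ n n then 6 * Eg μ n n else 0) := by
        rw [if_neg (fun h => h.1 rfl)]
      linarith
    have hex0 : 0 ≤ exc P μ Z S n m := exc_nonneg P μ Z S (fun n _ => hμ0 n) n m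
    rcases le_or_gt (1 / 4) (Kd μ n m) with hK | hK
    · have := o2 hnm hK
      have h48 : 48 * μ n * μ m ≤ 48 * (2 * μ n * (2 * μ m)) := by nlinarith [mul_pos hμn hμm]
      linarith
    · have hov := o3 hnm hK
      have hi1 : 0 ≤ (if n = m then 6 * μ n else 0) := by
        rw [if_neg hnm]
      have hi2 : 0 ≤ (if (n, m) ∈ Z then 6 * Eg μ n m else 0) := by
        split_ifs
        · positivity
        · exact le_rfl
      have hi3 : 0 ≤ (if n ≠ m ∧ Small P μ n m then 6 * Eg μ n m else 0) := by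
        split_ifs
        · positivity
        · exact le_rfl
      by_cases hzZ : (n, m) ∈ Z
      · rw [hexc, if_pos hzZ]
        linarith
      by_cases hmeet : Meet θ μ n m
      · obtain ⟨hKκ, hcase⟩ := hcl n hn m hm hnm hzZ hK hmeet
        rcases hcase with h | h | h
        · exact absurd (rel_pc h.1 h.2) hr1
        · exact absurd (rel_pc h.1 h.2) hr2
        · obtain ⟨⟨b, c, hl⟩, hrat, hpr⟩ := h
          obtain ⟨t1, t2, t3, t4⟩ := h62 θ μ n m b c hn0 hm0 hnm hμn hμm hKκ hl hrat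
          have hKpos : 0 < Kd μ n m := by
            unfold Kd
            have h1 : 0 < n.lcm m := Nat.lcm_pos hn0 hm0
            have h2 : (0:ℝ) < n := by exact_mod_cast hn0
            have h3 : 0 < μ n / n := by positivity
            have h4 : 0 < max (μ n / n) (μ m / m) := lt_max_of_lt_left h3
            positivity
          have hκK : 1 / κ0 ≤ 1 / Kd μ n m := one_div_le_one_div_of_le hKpos hKκ
          have hin : (1, (c : ℚ) / b) ∈ Lab n := by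
            simp only [hLab]
            exact Finset.mem_union_left _ (own_mem hTU hW0 (hκK.trans t3) t1)
          have him : (1, (c : ℚ) / b) ∈ Lab m := by
            simp only [hLab]
            exact Finset.mem_union_left _ (own_mem hTU hW0 (hκK.trans t4) t2)
          have h5 := h65 θ μ Lab n m q b c hn0 hm0 hnm hμn hμm (hLabOK n hn) (hLabOK m hm) hKκ
            hl hin him (by
              intro r hr hd
              refine ⟨?_, hpr r hr hd⟩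
              by_contra hge
              push Not at hge
              exact hi_of_dvd hn0 hm0 hr (hag r hr hge) hd)
          rcases h5 with h5 | h5
          · rw [h5]
            linarith
          · have e5 : (if n ≠ m ∧ Small P μ n m then 6 * Eg μ n m else 0) = 6 * Eg μ n m :=
              if_pos ⟨hnm, h5⟩
            rw [hexc, e5]
            linarith
      · rw [o4 hmeet]
        linarith
  · -- masses of the new spaces
    intro n0 hn0 m0 hm0 hrel m hm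
    have hk : R.key p' m = R.key p' m0 := (Finset.mem_filter.1 hm).2
    obtain ⟨k1, -, -⟩ := R.key_eq hk
    have hc : cond m := ⟨n0, hn0, (rel_congr hk).2 hrel⟩
    have := (hprime m hc).2.2
    rw [← k1]
    linarith
  · -- kills of the new spaces
    intro n0 hn0 m0 hm0 hrel m hm v r hkill hsm
    have hmS : m ∈ S := (Finset.mem_filter.1 hm).1
    have hk : R.key p' m = R.key p' m0 := (Finset.mem_filter.1 hm).2
    obtain ⟨k1, -, -⟩ := R.key_eq hk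
    have hc : cond m := ⟨n0, hn0, (rel_congr hk).2 hrel⟩
    have hrpe : rp' m = rp' m0 := by
      simp only [hrp']
      rw [hk]
    have hq := hprime m hc
    have hfe : R.fac p' m = R.fac p' m0 := fac_congr hk
    have hLm : Lab m = own κ0 θ (1 / μ m) ∪ pull (p' m0) (LabY (rp' m0) (m / R.fac p' m0)) := by
      simp only [hLab]
      rw [if_pos hc, k1, hrpe, hfe]
    refine h68 P C6 μ (R.muY p' μ (rp' m0)) Lab (LabY (rp' m0)) (p' m0) m (m / R.fac p' m0) v r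
      (by rw [← k1]; exact hq.1) (hμp m hmS) (Nat.div_dvd_of_dvd (R.fac_dvd hm).1) ?_ ?_ ?_
      hkill hsm
    · rw [← hrpe, ← hfe, hmY m hmS hc, k1]
    · rw [hLm]
      exact Finset.subset_union_right
    · intro x hx
      rw [hLm, Finset.mem_union] at hx
      rcases hx with hx | hx
      · right
        unfold own at hx
        split_ifs at hx with h
        · rw [Finset.mem_singleton] at hx
          rw [hx]
        · simp at hx
      · exact Or.inl hx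
  · -- the new spaces are OK
    intro n0 hn0 m0 hm0 hrel
    have hc : cond m0 := ⟨n0, hn0, hrel⟩
    obtain ⟨r1, r2, r3⟩ := hrep m0 hm0 hc
    have := (hLabY (rp' m0) r1 r3).2
    rw [(R.key_eq r2).1, SY_congr S r2] at this
    rw [muY_congr μ r2] at this ⊢
    exact this

/-- **SysStmt** from the classification and the items. -/
theorem sys (hOV : OvStmt) (hTU : TinyUniq) (h62 : S62) (h65 : S65) (h66 : S66) (h67 : S67)
    (h68 : S68) (hCls : ClsStmt) : SysStmt := by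
  intro C1
  obtain ⟨C6, hC6, hcls⟩ := hCls C1
  refine ⟨C6, hC6, ?_⟩
  intro P κb hκb
  obtain ⟨W0, hW0, hT⟩ := hTU
  obtain ⟨k62, hk62, h62'⟩ := h62
  obtain ⟨k65, hk65, h65'⟩ := h65 P C6 hC6
  obtain ⟨C5, hC5, h66'⟩ := h66 P
  obtain ⟨κ0, CZ, hκ0, hκ1, hCZ, hc⟩ := hcls P (min κb (min (1 / 8) (min k62 (min k65 (1 / W0)))))
    (by
      have : 0 < 1 / W0 := by positivity
      exact lt_min hκb (lt_min (by norm_num) (lt_min hk62 (lt_min hk65 this))))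
  have a1 : κ0 ≤ κb := hκ1.trans (min_le_left _ _)
  have a2 : κ0 ≤ 1 / 8 := hκ1.trans ((min_le_right _ _).trans (min_le_left _ _))
  have a3 : κ0 ≤ k62 := hκ1.trans ((min_le_right _ _).trans ((min_le_right _ _).trans
    (min_le_left _ _)))
  have a4 : κ0 ≤ k65 := hκ1.trans ((min_le_right _ _).trans ((min_le_right _ _).trans
    ((min_le_right _ _).trans (min_le_left _ _))))
  have a5 : κ0 ≤ 1 / W0 := hκ1.trans ((min_le_right _ _).trans ((min_le_right _ _).trans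
    ((min_le_right _ _).trans (min_le_right _ _))))
  have a6 : W0 ≤ 1 / κ0 := by
    rw [le_div_iff₀ hκ0]
    rw [le_div_iff₀ (by linarith)] at a5
    linarith
  refine ⟨κ0, 6 + 6 * CZ + 6 * C5, hκ0, a1, by positivity, ?_⟩
  intro S lev ρ θ hρ hS
  exact sys_step hOV h67 h68 hκ0 a2 hCZ hC5 hT a6
    (fun θ μ n m b c h1 h2 h3 h4 h5 h6 h7 h8 =>
      h62' θ μ n m b c h1 h2 h3 h4 h5 (h6.trans a3) h7 h8)
    (fun θ μ Lab n m q1 b c h1 h2 h3 h4 h5 h6 h7 h8 h9 h10 h11 h12 =>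
      h65' κ0 θ μ Lab n m q1 b c hκ0 a4 h1 h2 h3 h4 h5 h6 h7 h8 h9 h10 h11 h12)
    h66' hc S.card S lev ρ θ rfl hρ hS

end Pool.Agent.MP_0863b8.A
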