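import Pool.Agent.Work.MP_0863b8_nt.Bd.B08

/-!
MP_0863b8_nt, assembly: the child systems.
-/

set_option autoImplicit false

namespace Pool.Agent.MP_0863b8.A

open Finset

/-- the half widths of a child of a dyadic system are those of a dyadic system -/
theorem muY_mu (p : ℕ → ℕ) (ρ : ℝ) (lev : ℕ → ℕ) (m0 : ℕ) :
    R.muY p (CL.mu ρ lev) m0 =
      CL.mu (ρ * (p m0 : ℝ) ^ (m0.factorization (p m0) + 1))
        (fun x => lev (R.fac p m0 * x)) := by
  funext x
  unfold R.muY CL.mu CL.rad R.fac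
  push_cast
  ring

/-- the key of the elements of a class -/
theorem mem_Lset {p : ℕ → ℕ} {S : Finset ℕ} {m0 m : ℕ} (hm : m ∈ R.Lset p S m0) :
    m ∈ S ∧ p m = p m0 ∧ R.hi (p m0) m = R.hi (p m0) m0 ∧
      m.factorization (p m0) = m0.factorization (p m0) := by
  unfold R.Lset at hm
  rw [Finset.mem_filter] at hm
  obtain ⟨h1, h2⟩ := hm
  unfold R.key at h2
  simp only [Prod.mk.injEq] at h2
  obtain ⟨h3, h4, h5⟩ := h2
  rw [h3] at h4 h5
  exact ⟨h1, h3, h4, h5⟩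

theorem self_mem_Lset {p : ℕ → ℕ} {S : Finset ℕ} {m0 : ℕ} (hm : m0 ∈ S) :
    m0 ∈ R.Lset p S m0 := by
  unfold R.Lset
  exact Finset.mem_filter.2 ⟨hm, rfl⟩

/-- `fac` divides the elements of the class -/
theorem fac_dvd {p : ℕ → ℕ} {S : Finset ℕ} {m0 m : ℕ} (hm : m ∈ R.Lset p S m0) :
    R.fac p m0 ∣ m := by
  obtain ⟨-, -, -, h⟩ := mem_Lset hm
  unfold R.fac
  rw [← h]
  exact Nat.ordProj_dvd m (p m0)

/-- elements of `SY` -/
theorem mem_SY {p : ℕ → ℕ} {S : Finset ℕ} {m0 x : ℕ} (hx : x ∈ R.SY p S m0) :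
    ∃ m ∈ R.Lset p S m0, x = m / R.fac p m0 ∧ R.fac p m0 * x = m := by
  unfold R.SY at hx
  rw [Finset.mem_image] at hx
  obtain ⟨m, hm, rfl⟩ := hx
  exact ⟨m, hm, rfl, Nat.mul_div_cancel' (fac_dvd hm)⟩

/-- the elements of `SY` are positive and satisfy the bound for `rp` -/
theorem SY_pos {p : ℕ → ℕ} {S : Finset ℕ} {m0 : ℕ} {C1 : ℝ}
    (hS : ∀ n ∈ S, 0 < n ∧ rp n ≤ C1) : ∀ x ∈ R.SY p S m0, 0 < x ∧ rp x ≤ C1 := by
  intro x hx
  obtain ⟨m, hm, -, hxm⟩ := mem_SY hx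
  obtain ⟨hmS, -⟩ := mem_Lset hm
  obtain ⟨hm0, hrp⟩ := hS m hmS
  have hxd : x ∣ m := ⟨R.fac p m0, by rw [← hxm, mul_comm]⟩
  refine ⟨Nat.pos_of_dvd_of_pos hxd hm0, le_trans ?_ hrp⟩
  unfold rp
  exact Finset.sum_le_sum_of_subset_of_nonneg (Nat.primeFactors_mono hxd hm0.ne')
    (fun _ _ _ => by positivity)

/-- factorizations of the elements of `SY` at primes `≥ p m0` -/
theorem SY_fact {p : ℕ → ℕ} {S : Finset ℕ} {m0 : ℕ} (hq : (p m0).Prime)
    (hS : ∀ n ∈ S, 0 < n) {x : ℕ} (hx : x ∈ R.SY p S m0) :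
    x.factorization (p m0) = 0 ∧
      ∀ r : ℕ, r.Prime → p m0 < r → x.factorization r = m0.factorization r := by
  obtain ⟨m, hm, -, hxm⟩ := mem_SY hx
  obtain ⟨hmS, -, hhi, hfa⟩ := mem_Lset hm
  have hm0 := hS m hmS
  have hfac0 : R.fac p m0 ≠ 0 := by
    unfold R.fac
    exact pow_ne_zero _ hq.ne_zero
  have hx0 : x ≠ 0 := by
    rintro rfl
    rw [mul_zero] at hxm
    omega
  have hff : ∀ r : ℕ, m.factorization r =
      (R.fac p m0).factorization r + x.factorization r := by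
    intro r
    rw [← hxm, Nat.factorization_mul hfac0 hx0]
    rfl
  have hfr : ∀ r : ℕ, (R.fac p m0).factorization r =
      if r = p m0 then m0.factorization (p m0) else 0 := by
    intro r
    unfold R.fac
    rw [Nat.factorization_pow, hq.factorization]
    by_cases h : r = p m0
    · subst h
      simp
    · rw [if_neg h]
      simp [Finsupp.single_apply, Ne.symm h]
  constructor
  · have := hff (p m0)
    rw [hfr, if_pos rfl] at this
    omega
  · intro r hr hlt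
    have h1 := hff r
    rw [hfr, if_neg (by omega)] at h1
    have h2 : (R.hi (p m0) m) r = (R.hi (p m0) m0) r := by rw [hhi]
    unfold R.hi at h2
    rw [Finsupp.filter_apply_pos _ _ hlt, Finsupp.filter_apply_pos _ _ hlt] at h2
    omega

/-- the elements of `SY` agree at the primes `≥ p m0` -/
theorem SY_Ag {p : ℕ → ℕ} {S : Finset ℕ} {m0 : ℕ} (hq : (p m0).Prime)
    (hS : ∀ n ∈ S, 0 < n) : ∀ x ∈ R.SY p S m0, ∀ y ∈ R.SY p S m0, R.Ag (p m0) x y := by
  intro x hx y hy r hr hle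
  obtain ⟨h1, h2⟩ := SY_fact hq hS hx
  obtain ⟨h3, h4⟩ := SY_fact hq hS hy
  rcases hle.eq_or_lt with h | h
  · rw [← h, h1, h3]
  · rw [h2 r hr h, h4 r hr h]

/-- the child has fewer elements -/
theorem SY_card {p : ℕ → ℕ} {S : Finset ℕ} {n0 m0 : ℕ} (hn0 : n0 ∈ S)
    (hrel : R.Rel p n0 m0) : (R.SY p S m0).card < S.card := by
  have h1 : (R.SY p S m0).card ≤ (R.Lset p S m0).card := Finset.card_image_le
  have h2 : (R.Lset p S m0).card < S.card := by
    apply Finset.card_lt_card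
    rw [Finset.ssubset_iff_of_subset (by unfold R.Lset; exact Finset.filter_subset _ _)]
    refine ⟨n0, hn0, fun h => ?_⟩
    obtain ⟨-, -, -, h4⟩ := mem_Lset h
    have h5 := hrel.2
    omega
  omega

/-- a relevant pair has a relevant prime -/
theorem rel_ne_zero {p : ℕ → ℕ} {n m : ℕ} (h : R.Rel p n m) : p m ≠ 0 := by
  intro h0
  have h2 := h.2
  rw [h0] at h2
  simp at h2

/-- the data of the child depend only on the class -/
theorem child_congr {p : ℕ → ℕ} {S : Finset ℕ} {m0 m1 : ℕ} (h : m1 ∈ R.Lset p S m0) :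
    p m1 = p m0 ∧ R.fac p m1 = R.fac p m0 ∧ R.Lset p S m1 = R.Lset p S m0 ∧
      R.SY p S m1 = R.SY p S m0 ∧ ∀ μ : ℕ → ℝ, R.muY p μ m1 = R.muY p μ m0 := by
  have hkey : R.key p m1 = R.key p m0 := by
    unfold R.Lset at h
    exact (Finset.mem_filter.1 h).2
  obtain ⟨-, h1, -, h3⟩ := mem_Lset h
  have hf : R.fac p m1 = R.fac p m0 := by
    unfold R.fac
    rw [h1, h3]
  have hL : R.Lset p S m1 = R.Lset p S m0 := by
    unfold R.Lset
    simp only [hkey]
  refine ⟨h1, hf, hL, ?_, ?_⟩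
  · unfold R.SY
    rw [hL, hf]
  · intro μ
    unfold R.muY
    rw [h1, hf]

end Pool.Agent.MP_0863b8.A
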