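import Pool.Agent.Work.MP_0863b8_nt.Defs
import Pool.Agent.Work.MP_0863b8_nt.R.Defs

/-!
MP_0863b8_nt, block A (sections 6 and 7 of `PROOF.md`): labels, kill sets, assembly of the systems.
Definitions.  Notation: `W = 1 / μ n`; a label is a pair `x = (D, ρ)`, `x.1 = D` the factor of the
space, `x.2 = ρ` the rational approximation of the target of the ground space.
-/

set_option autoImplicit false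

namespace Pool.Agent.MP_0863b8.A

open MeasureTheory

/-- the residue `a` is killed by the label `ρ` and the modulus `v`: `v ∣ s a + t` with `t = s ρ`,
`s` prime to `v` (so `v ∣ den a + num`, `v` prime to `den`) -/
def KillC (ρ : ℚ) (v : ℕ) (a : ℤ) : Prop :=
  ∃ s t : ℤ, IsCoprime s (v : ℤ) ∧ (t : ℚ) = s * ρ ∧ (v : ℤ) ∣ s * a + t

/-- the denominator of `D ρ` -/
def dn (x : ℕ × ℚ) : ℕ := ((x.1 : ℚ) * x.2).den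

/-- label lists (6.3) -/
def LabOK (κ0 θ W : ℝ) (L : Finset (ℕ × ℚ)) : Prop :=
  (∀ x ∈ L, 1 ≤ x.1 ∧ 1 / κ0 ≤ W / x.1 ∧ (dn x : ℝ) ≤ (W / x.1) ^ ((1:ℝ) / 10) ∧
    |θ - (x.2 : ℝ)| * W ≤ (W / x.1) ^ ((1:ℝ) / 10)) ∧
  (∀ x ∈ L, ∀ y ∈ L, x.1 ∣ y.1 ∨ y.1 ∣ x.1) ∧
  (∀ x ∈ L, ∀ y ∈ L, x.1 = y.1 → x = y)

/-- the modulus `v` is admissible for the label `x` of the list `L` -/
def Adm (P : ℕ) (C6 W : ℝ) (L : Finset (ℕ × ℚ)) (x : ℕ × ℚ) (v : ℕ) : Prop :=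
  1 < v ∧ (∀ p : ℕ, p.Prime → p ∣ v → P < p ∧ (p : ℝ) ≤ (W / x.1) ^ C6) ∧
  ∀ y ∈ L, x.1 ∣ y.1 → y.2 ≠ x.2 → (W / y.1) ^ ((1:ℝ) / 30) ≤ v

/-- the kill set of `n` -/
def Kof (P : ℕ) (C6 : ℝ) (μ : ℕ → ℝ) (Lab : ℕ → Finset (ℕ × ℚ)) (n v : ℕ) (r : ℤ) : Prop :=
  v ∣ n ∧ ∃ x ∈ Lab n, Adm P C6 (1 / μ n) (Lab n) x v ∧ KillC x.2 v r

/-- half widths of a dyadic system -/
noncomputable def mu (lev : ℕ → ℕ) (ρ : ℝ) (n : ℕ) : ℝ := (n : ℝ) * (ρ / 2 ^ lev n)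

/-- depth of a pair -/
noncomputable def Kd (μ : ℕ → ℝ) (n m : ℕ) : ℝ :=
  ((n.lcm m : ℕ) : ℝ) * max (μ n / n) (μ m / m)

/-- energy of a pair -/
noncomputable def Eg (μ : ℕ → ℝ) (n m : ℕ) : ℝ :=
  ((n.gcd m : ℕ) : ℝ) * min (μ n / n) (μ m / m)

/-- own cofactor of `n` in the pair `(n, m)` -/
def cf (n m : ℕ) : ℕ := n / n.gcd m

/-- the two open sets meet -/
def Meet (θ : ℝ) (μ : ℕ → ℝ) (n m : ℕ) : Prop :=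
  ∃ (y : ℝ) (k l : ℤ), |(n:ℝ) * y - θ - k| < μ n ∧ |(m:ℝ) * y - θ - l| < μ m

/-- explained pair: `c / b` is the label -/
def Lbl (θ : ℝ) (μ : ℕ → ℝ) (n m b : ℕ) (c : ℤ) : Prop :=
  0 < b ∧ Int.gcd b c = 1 ∧ (b : ℝ) ≤ (Kd μ n m) ^ (-((1:ℝ) / 12)) ∧
    |θ - c / b| * (max (cf n m) (cf m n) : ℕ) ≤ (Kd μ n m) ^ (1 - (1:ℝ) / 12)

/-- explained pair with all side conditions -/
def Expl (C6 θ : ℝ) (μ : ℕ → ℝ) (n m : ℕ) : Prop :=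
  (∃ (b : ℕ) (c : ℤ), Lbl θ μ n m b c) ∧
  max (μ n / n) (μ m / m) ≤ (Kd μ n m) ^ (-((1:ℝ) / 100)) * min (μ n / n) (μ m / m) ∧
  ∀ p : ℕ, p.Prime → p ∣ cf n m * cf m n → (p : ℝ) ≤ (1 / μ n) ^ C6 ∧ (p : ℝ) ≤ (1 / μ m) ^ C6

/-- Theorem 4.8 in the form needed here.  `Z` contains the negligible pairs and the pairs with
`κ_M ≤ Kd < 1/4`. -/
def ClsStmt : Prop :=
  ∀ C1 : ℝ, ∃ C6 : ℝ, 0 < C6 ∧ ∀ (P : ℕ) (κb : ℝ), 0 < κb → ∃ κ0 C : ℝ, 0 < κ0 ∧ κ0 ≤ κb ∧ 0 < C ∧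
    ∀ (S : Finset ℕ) (lev : ℕ → ℕ) (ρ θ : ℝ), 0 < ρ →
    (∀ n ∈ S, 0 < n ∧ rp n ≤ C1 ∧ mu lev ρ n ≤ 1 / 8) →
    ∃ (p : ℕ → ℕ) (Z : Finset (ℕ × ℕ)),
      ∑ z ∈ Z, Eg (mu lev ρ) z.1 z.2 ≤
        C * (1 + ∑ n ∈ S, mu lev ρ n) ^ ((1:ℝ) / 4) * ∑ n ∈ S, mu lev ρ n ∧
      ∀ n ∈ S, ∀ m ∈ S, n ≠ m → (n, m) ∉ Z → Kd (mu lev ρ) n m < 1 / 4 →
        Meet θ (mu lev ρ) n m → Kd (mu lev ρ) n m ≤ κ0 ∧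
        ((R.Rel p n m ∧ (p m).Prime ∧ P < p m ∧ (p m : ℝ) * mu lev ρ m ≤ κ0) ∨
          (R.Rel p m n ∧ (p n).Prime ∧ P < p n ∧ (p n : ℝ) * mu lev ρ n ≤ κ0) ∨
          Expl C6 θ (mu lev ρ) n m)

/-- What block A delivers: every dyadic system has label lists and is `OK`. -/
def SysStmt : Prop :=
  ∀ C1 : ℝ, ∃ C6 : ℝ, 0 < C6 ∧ ∀ (P : ℕ) (κb : ℝ), 0 < κb → ∃ κ0 C : ℝ, 0 < κ0 ∧ κ0 ≤ κb ∧ 0 < C ∧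
    ∀ (S : Finset ℕ) (lev : ℕ → ℕ) (ρ θ : ℝ), 0 < ρ →
    (∀ n ∈ S, 0 < n ∧ rp n ≤ C1 ∧ mu lev ρ n ≤ 1 / 8) →
    ∃ Lab : ℕ → Finset (ℕ × ℚ),
      (∀ n ∈ S, LabOK κ0 θ (1 / mu lev ρ n) (Lab n)) ∧
      R.OK P (1 / 8) 48 C θ (mu lev ρ) S (Kof P C6 (mu lev ρ) Lab)

end Pool.Agent.MP_0863b8.A
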