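import Pool.Agent.Work.MP_0863b8_nt.A.Stmts
import Pool.Agent.Work.MP_0863b8_nt.Overlap

/-!
MP_0863b8_nt, block A: item OV (overlaps of the kept sets).
-/

set_option autoImplicit false

namespace Pool.Agent.MP_0863b8.A

open MeasureTheory

namespace ItOV

theorem sub_one (θ : ℝ) (μ : ℕ → ℝ) (K : ℕ → ℕ → ℤ → Prop) (q n : ℕ) (t : ℝ)
    (ht : t ∈ R.Bs θ μ K q n) (ht1 : t ∈ Set.Ico (0:ℝ) 1) : t ∈ Bset θ (μ n) n 0 1 := by
  obtain ⟨k, hk, -⟩ := ht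
  exact ⟨ht1.1, ht1.2, k, by simp, hk⟩

theorem sub_two (θ : ℝ) (μ : ℕ → ℝ) (K : ℕ → ℕ → ℤ → Prop) (q n m : ℕ) :
    R.Bs θ μ K q n ∩ R.Bs θ μ K q m ∩ Set.Ico (0 : ℝ) 1 ⊆
      Bset θ (μ n) n 0 1 ∩ Bset θ (μ m) m 0 1 := by
  rintro t ⟨⟨h1, h2⟩, h3⟩
  exact ⟨sub_one θ μ K q n t h1 h3, sub_one θ μ K q m t h2 h3⟩

theorem bset_sub (θ ψ : ℝ) (n : ℕ) (q p : ℤ) : Bset θ ψ n q p ⊆ Set.Ico (0:ℝ) 1 := by
  rintro t ⟨h0, h1, -⟩
  exact ⟨h0, h1⟩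

theorem fin_of_sub {s : Set ℝ} (h : s ⊆ Set.Ico (0:ℝ) 1) : volume s ≠ ⊤ := by
  have : volume s ≤ volume (Set.Ico (0:ℝ) 1) := measure_mono h
  rw [Real.volume_Ico] at this
  exact ne_top_of_le_ne_top ENNReal.ofReal_ne_top this

theorem ov_le (θ : ℝ) (μ : ℕ → ℝ) (K : ℕ → ℕ → ℤ → Prop) (q n m : ℕ) :
    R.ov θ μ K q n m ≤ (volume (Bset θ (μ n) n 0 1 ∩ Bset θ (μ m) m 0 1)).toReal := by
  unfold R.ov
  refine ENNReal.toReal_mono (fin_of_sub ?_) (measure_mono (sub_two θ μ K q n m))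
  exact fun t ht => bset_sub _ _ _ _ _ ht.1

theorem ov_comm (θ : ℝ) (μ : ℕ → ℝ) (K : ℕ → ℕ → ℤ → Prop) (q n m : ℕ) :
    R.ov θ μ K q n m = R.ov θ μ K q m n := by
  unfold R.ov
  rw [Set.inter_comm (R.Bs θ μ K q n)]

theorem kd_comm (μ : ℕ → ℝ) (n m : ℕ) : Kd μ n m = Kd μ m n := by
  unfold Kd
  rw [Nat.lcm_comm, max_comm]

theorem eg_comm (μ : ℕ → ℝ) (n m : ℕ) : Eg μ n m = Eg μ m n := by
  unfold Eg
  rw [Nat.gcd_comm, min_comm]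

theorem half (θ : ℝ) (μ : ℕ → ℝ) (K : ℕ → ℕ → ℤ → Prop) (q x y : ℕ) (hx : 0 < x) (hy : 0 < y)
    (hμx : 0 < μ x) (hμy : 0 < μ y) (hxy : x ≠ y) (hr : μ y / y ≤ μ x / x) :
    (1 / 4 ≤ Kd μ x y → R.ov θ μ K q x y ≤ 48 * μ x * μ y) ∧
    (Kd μ x y < 1 / 4 → R.ov θ μ K q x y ≤ 6 * Eg μ x y) := by
  have hg : 0 < x.gcd y := Nat.gcd_pos_of_pos_left y hx
  have hgR : (0:ℝ) < (x.gcd y : ℝ) := by exact_mod_cast hg
  have hxR : (0:ℝ) < (x : ℝ) := by exact_mod_cast hx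
  have hyR : (0:ℝ) < (y : ℝ) := by exact_mod_cast hy
  have hb : ((y / x.gcd y : ℕ) : ℝ) = (y:ℝ) / (x.gcd y : ℝ) :=
    Nat.cast_div (Nat.gcd_dvd_right x y) hgR.ne'
  have hl : ((x.lcm y : ℕ) : ℝ) = (x:ℝ) * y / (x.gcd y : ℝ) := by
    have h1 : (x.gcd y) * (x.lcm y) = x * y := Nat.gcd_mul_lcm x y
    have h2 : (x.gcd y : ℝ) * (x.lcm y : ℝ) = (x:ℝ) * y := by exact_mod_cast h1
    field_simp
    linarith
  have hK : Kd μ x y = ((y / x.gcd y : ℕ) : ℝ) * μ x := by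
    unfold Kd
    rw [max_eq_left hr, hl, hb]
    field_simp
  have hE : Eg μ x y = μ y / ((y / x.gcd y : ℕ) : ℝ) := by
    unfold Eg
    rw [min_eq_right hr, hb]
    field_simp
  have hO := overlap θ (μ x) (μ y) x y (x / x.gcd y) (y / x.gcd y) _ 0 1 0 1 hx hy hxy hμx hμy
    hr rfl rfl rfl
  constructor
  · intro h
    refine le_trans (ov_le θ μ K q x y) (hO.1 ?_)
    rw [hK] at h
    linarith
  · intro h
    rw [hE]
    refine le_trans (ov_le θ μ K q x y) (hO.2.1 ?_)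
    rw [hK] at h
    linarith

end ItOV

open ItOV in
theorem pr_OV : OvStmt := by
  intro θ μ K q n m hn hm hμn hμm
  refine ⟨?_, ?_, ?_, ?_⟩
  · refine le_trans (ov_le θ μ K q n n) ?_
    rw [Set.inter_self]
    exact (single θ (μ n) n 0 1 hn hμn.le).2
  · intro hne h
    rcases le_total (μ m / m) (μ n / n) with hr | hr
    · exact (half θ μ K q n m hn hm hμn hμm hne hr).1 h
    · rw [kd_comm] at h
      rw [ov_comm]
      have := (half θ μ K q m n hm hn hμm hμn (Ne.symm hne) hr).1 h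
      linarith
  · intro hne h
    rcases le_total (μ m / m) (μ n / n) with hr | hr
    · exact (half θ μ K q n m hn hm hμn hμm hne hr).2 h
    · rw [kd_comm] at h
      rw [ov_comm, eg_comm]
      exact (half θ μ K q m n hm hn hμm hμn (Ne.symm hne) hr).2 h
  · intro hM
    have : R.Bs θ μ K q n ∩ R.Bs θ μ K q m ∩ Set.Ico (0 : ℝ) 1 = ∅ := by
      rw [Set.eq_empty_iff_forall_notMem]
      rintro t ⟨⟨⟨k, hk, -⟩, ⟨l, hl, -⟩⟩, -⟩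
      exact hM ⟨t, k, l, hk, hl⟩
    unfold R.ov
    rw [this]
    simp

end Pool.Agent.MP_0863b8.A
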