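import Pool.Agent.Work.MP_0863b8_nt.A.Stmts

/-! MP_0863b8_nt, block A, item S61: an explained pair forces divisibility of the centres. -/

set_option autoImplicit false

namespace Pool.Agent.MP_0863b8.A

namespace ItS61

theorem cf_pos {n m : ℕ} (hn : 0 < n) : 0 < cf n m :=
  Nat.div_pos (Nat.le_of_dvd hn (Nat.gcd_dvd_left n m)) (Nat.gcd_pos_of_pos_left m hn)

theorem gcd_mul_cf (n m : ℕ) : n.gcd m * cf n m = n := Nat.mul_div_cancel' (Nat.gcd_dvd_left n m)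

theorem gcd_mul_cf' (n m : ℕ) : n.gcd m * cf m n = m := by
  unfold cf; rw [Nat.gcd_comm m n]; exact Nat.mul_div_cancel' (Nat.gcd_dvd_right n m)

theorem mul_cf (n m : ℕ) : n * cf m n = n.lcm m := by
  unfold cf Nat.lcm; rw [Nat.gcd_comm m n, Nat.mul_div_assoc _ (Nat.gcd_dvd_right n m)]

theorem mul_cf' (n m : ℕ) : m * cf n m = n.lcm m := by
  rw [mul_cf m n, Nat.lcm_comm]

theorem cop {n m : ℕ} (hn : 0 < n) : Nat.Coprime (cf n m) (cf m n) := by
  unfold cf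
  rw [Nat.gcd_comm m n]
  exact Nat.coprime_div_gcd_div_gcd (Nat.gcd_pos_of_pos_left m hn)

theorem cf_ne {n m : ℕ} (h : n ≠ m) : cf n m ≠ cf m n := by
  intro h'
  apply h
  have h1 := gcd_mul_cf n m
  have h2 := gcd_mul_cf' n m
  rw [← h'] at h2
  omega

theorem K_ge {μ : ℕ → ℝ} {n m : ℕ} (hn : 0 < n) : (cf m n : ℝ) * μ n ≤ Kd μ n m := by
  have hnr : (0 : ℝ) < n := by exact_mod_cast hn
  unfold Kd
  have h1 : ((n.lcm m : ℕ) : ℝ) = n * cf m n := by exact_mod_cast (mul_cf n m).symm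
  calc (cf m n : ℝ) * μ n = ((n.lcm m : ℕ) : ℝ) * (μ n / n) := by rw [h1]; field_simp
    _ ≤ _ := mul_le_mul_of_nonneg_left (le_max_left _ _) (Nat.cast_nonneg _)

theorem K_ge' {μ : ℕ → ℝ} {n m : ℕ} (hm : 0 < m) : (cf n m : ℝ) * μ m ≤ Kd μ n m := by
  have hmr : (0 : ℝ) < m := by exact_mod_cast hm
  unfold Kd
  have h1 : ((n.lcm m : ℕ) : ℝ) = m * cf n m := by exact_mod_cast (mul_cf' n m).symm
  calc (cf n m : ℝ) * μ m = ((n.lcm m : ℕ) : ℝ) * (μ m / m) := by rw [h1]; field_simp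
    _ ≤ _ := mul_le_mul_of_nonneg_left (le_max_right _ _) (Nat.cast_nonneg _)

theorem core {u v b : ℕ} {c k l : ℤ} {θ K x : ℝ} (hu : 0 < u) (hv : 0 < v) (huv : Nat.Coprime u v)
    (hne : u ≠ v) (hb : 0 < b) (hg : Int.gcd b c = 1) (hx : 0 < x) (hx1 : x ≤ 1 / 2)
    (hK : K = x ^ 12) (hbK : (b : ℝ) * x ≤ 1) (hθ : |θ - c / b| * (max u v : ℕ) ≤ x ^ 11)
    (h : |(v : ℝ) * (θ + k) - u * (θ + l)| ≤ 2 * K) :
    (u : ℤ) ∣ b * k + c ∧ (v : ℤ) ∣ b * l + c ∧ (b : ℝ) ≤ ((max u v : ℕ) : ℝ) ∧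
      |θ - c / b| ≤ 2 * K := by
  have hbr : (0 : ℝ) < b := by exact_mod_cast hb
  have hur : (0 : ℝ) < u := by exact_mod_cast hu
  have hvr : (0 : ℝ) < v := by exact_mod_cast hv
  have habs : |(v : ℝ) - u| ≤ (max u v : ℕ) := by
    push_cast
    rw [abs_le]
    constructor
    · have := le_max_left (u : ℝ) v; linarith
    · have := le_max_right (u : ℝ) v; linarith
  have h1 : |((v : ℝ) - u) * (θ - c / b)| ≤ x ^ 11 := by
    rw [abs_mul, mul_comm]
    exact (mul_le_mul_of_nonneg_left habs (abs_nonneg _)).trans hθ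
  have h2 : |((v : ℝ) - u) * (c / b) + (v * k - u * l)| ≤ 2 * K + x ^ 11 := by
    have h3 : ((v : ℝ) - u) * (c / b) + (v * k - u * l)
        = ((v : ℝ) * (θ + k) - u * (θ + l)) - ((v : ℝ) - u) * (θ - c / b) := by ring
    rw [h3]
    exact (abs_sub _ _).trans (add_le_add h h1)
  have h3 : (b : ℝ) * |((v : ℝ) - u) * (c / b) + (v * k - u * l)| < 1 := by
    have h4 : (b : ℝ) * |((v : ℝ) - u) * (c / b) + (v * k - u * l)| ≤ b * (2 * K + x ^ 11) :=
      mul_le_mul_of_nonneg_left h2 hbr.le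
    have h5 : (b : ℝ) * (2 * K + x ^ 11) = (b * x) * (2 * x ^ 11 + x ^ 10) := by rw [hK]; ring
    have h6 : (b * x) * (2 * x ^ 11 + x ^ 10) ≤ 1 * (2 * x ^ 11 + x ^ 10) :=
      mul_le_mul_of_nonneg_right hbK (by positivity)
    have h7 : x ^ 11 ≤ (1 / 2) ^ 11 := pow_le_pow_left₀ hx.le hx1 11
    have h8 : x ^ 10 ≤ (1 / 2) ^ 10 := pow_le_pow_left₀ hx.le hx1 10
    norm_num at h7 h8
    linarith
  have h4 : (b : ℝ) * |((v : ℝ) - u) * (c / b) + (v * k - u * l)|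
      = |(((v : ℤ) - u) * c + b * (v * k - u * l) : ℤ)| := by
    rw [← abs_of_pos hbr, ← abs_mul, abs_of_pos hbr]
    push_cast
    congr 1
    field_simp
  rw [h4] at h3
  have h5 : ((v : ℤ) - u) * c + b * (v * k - u * l) = 0 := by
    have h6 : |(((v : ℤ) - u) * c + b * (v * k - u * l) : ℤ)| < 1 := by exact_mod_cast h3
    exact Int.abs_lt_one_iff.1 h6
  have h6 : (v : ℤ) * (b * k + c) = u * (b * l + c) := by linear_combination h5
  have hcop : IsCoprime (u : ℤ) (v : ℤ) := Nat.isCoprime_iff_coprime.2 huv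
  refine ⟨hcop.dvd_of_dvd_mul_left ⟨_, h6⟩, hcop.symm.dvd_of_dvd_mul_left ⟨_, h6.symm⟩, ?_, ?_⟩
  · have h7 : (b : ℤ) ∣ (v : ℤ) - u := by
      have h8 : (b : ℤ) ∣ ((v : ℤ) - u) * c := ⟨-(v * k - u * l), by linear_combination h5⟩
      exact (Int.isCoprime_iff_gcd_eq_one.2 hg).dvd_of_dvd_mul_right h8
    have h9 : (v : ℤ) - u ≠ 0 := by
      intro h0; apply hne; omega
    have h10 : (b : ℤ) ≤ |(v : ℤ) - u| := Int.le_of_dvd (abs_pos.2 h9) ((dvd_abs _ _).2 h7)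
    have h11 : (b : ℝ) ≤ |(v : ℝ) - u| := by exact_mod_cast h10
    exact h11.trans habs
  · have h7 : |((v : ℝ) - u) * (θ - c / b)| ≤ 2 * K := by
      have h8 : ((v : ℝ) - u) * (θ - c / b) = (v : ℝ) * (θ + k) - u * (θ + l) := by
        have h9 : ((v : ℝ) - u) * c + b * (v * k - u * l) = 0 := by exact_mod_cast h5
        have h10 : ((v : ℝ) - u) * (c / b) = - (v * k - u * l) := by
          field_simp
          linear_combination h9
        linear_combination -h10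
      rw [h8]; exact h
    have h9 : (1 : ℝ) ≤ |(v : ℝ) - u| := by
      have h10 : (v : ℤ) - u ≠ 0 := by
        intro h0; apply hne; omega
      have h11 : (1 : ℤ) ≤ |(v : ℤ) - u| := Int.one_le_abs h10
      exact_mod_cast h11
    rw [abs_mul] at h7
    nlinarith [abs_nonneg (θ - (c : ℝ) / b)]

end ItS61

theorem pr_S61 : S61 := by
  refine ⟨1 / 4096, by norm_num, ?_⟩
  intro θ μ n m b c hn hm hnm hμn hμm hK hL y k l hk hl
  obtain ⟨hb, hg, hbK, hθ⟩ := hL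
  have hKpos : 0 < Kd μ n m :=
    lt_of_lt_of_le (mul_pos (by exact_mod_cast ItS61.cf_pos hm) hμn) (ItS61.K_ge hn)
  set x := (Kd μ n m) ^ ((1:ℝ) / 12) with hx
  have hxpos : 0 < x := Real.rpow_pos_of_pos hKpos _
  have hx12 : Kd μ n m = x ^ 12 := by
    rw [hx, ← Real.rpow_natCast, ← Real.rpow_mul hKpos.le]; norm_num
  have hx1 : x ≤ 1 / 2 := by
    by_contra h
    push_neg at h
    have h1 : (1 / 2 : ℝ) ^ 12 < x ^ 12 := pow_lt_pow_left₀ h (by norm_num) (by norm_num)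
    rw [← hx12] at h1
    norm_num at h1 hK
    linarith
  have hx11 : (Kd μ n m) ^ (1 - (1:ℝ) / 12) = x ^ 11 := by
    rw [hx, ← Real.rpow_natCast, ← Real.rpow_mul hKpos.le]; norm_num
  have hxinv : (Kd μ n m) ^ (-((1:ℝ) / 12)) = x⁻¹ := by
    rw [hx, Real.rpow_neg hKpos.le]
  rw [hx11] at hθ
  rw [hxinv] at hbK
  have hbx : (b : ℝ) * x ≤ 1 := by
    have := mul_le_mul_of_nonneg_right hbK hxpos.le
    rwa [inv_mul_cancel₀ hxpos.ne'] at this
  have hur : (0:ℝ) < cf n m := by exact_mod_cast ItS61.cf_pos hn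
  have hvr : (0:ℝ) < cf m n := by exact_mod_cast ItS61.cf_pos hm
  have hmain : |(cf m n : ℝ) * (θ + k) - cf n m * (θ + l)| ≤ 2 * Kd μ n m := by
    have e : (n : ℝ) * cf m n = m * cf n m := by
      exact_mod_cast (ItS61.mul_cf n m).trans (ItS61.mul_cf' n m).symm
    have h1 : (cf m n : ℝ) * (θ + k) - cf n m * (θ + l)
        = cf n m * (m * y - θ - l) - cf m n * (n * y - θ - k) := by
      linear_combination y * e
    rw [h1]
    refine (abs_sub _ _).trans ?_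
    rw [abs_mul, abs_mul, abs_of_pos hur, abs_of_pos hvr]
    have h2 := ItS61.K_ge (μ := μ) (n := n) (m := m) hn
    have h3 := ItS61.K_ge' (μ := μ) (n := n) (m := m) hm
    have h4 := mul_le_mul_of_nonneg_left hk.le hvr.le
    have h5 := mul_le_mul_of_nonneg_left hl.le hur.le
    linarith
  exact ItS61.core (ItS61.cf_pos hn) (ItS61.cf_pos hm) (ItS61.cop hn) (ItS61.cf_ne hnm) hb hg
    hxpos hx1 hx12 hbx hθ hmain

end Pool.Agent.MP_0863b8.A
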