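import Pool.Agent.Work.MP_0863b8_nt.A.Stmts

/-!
MP_0863b8_nt, block A, item S62.
-/

set_option autoImplicit false

namespace Pool.Agent.MP_0863b8.A

namespace ItS62

theorem one_end (K m v x b : ℝ) (hK0 : 0 < K) (hK1 : K ≤ 1) (hm0 : 0 < m) (hmK : m ≤ K)
    (hv : K ≤ v * K ^ (-((1:ℝ) / 100)) * m) (hx0 : 0 ≤ x)
    (hx : x * v ≤ K ^ (1 - (1:ℝ) / 12)) (hb : b ≤ K ^ (-((1:ℝ) / 12))) :
    b ≤ (1 / m) ^ ((1:ℝ) / 10) ∧ x * (1 / m) ≤ (1 / m) ^ ((1:ℝ) / 10) ∧ 1 / K ≤ 1 / m := by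
  have hW : 1 / K ≤ 1 / m := one_div_le_one_div_of_le hm0 hmK
  have hK2 : 1 ≤ 1 / K := by
    rw [le_div_iff₀ hK0]
    linarith
  have hW1 : 1 ≤ 1 / m := le_trans hK2 hW
  have hneg : ∀ a : ℝ, 0 ≤ a → a ≤ 1 / 10 → K ^ (-a) ≤ (1 / m) ^ ((1:ℝ) / 10) := by
    intro a ha ha'
    have h1 : K ^ (-a) = (1 / K) ^ a := by
      rw [one_div, Real.inv_rpow hK0.le, Real.rpow_neg hK0.le]
    rw [h1]
    calc (1 / K) ^ a ≤ (1 / m) ^ a := Real.rpow_le_rpow (by positivity) hW ha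
      _ ≤ (1 / m) ^ ((1:ℝ) / 10) := Real.rpow_le_rpow_of_exponent_le hW1 ha'
  refine ⟨le_trans hb (hneg _ (by norm_num) (by norm_num)), ?_, hW⟩
  have h2 : 1 / m ≤ v * K ^ (-((1:ℝ) / 100)) / K := by
    rw [div_le_div_iff₀ hm0 hK0]
    linarith
  have h3 : x * (1 / m) ≤ x * (v * K ^ (-((1:ℝ) / 100)) / K) := mul_le_mul_of_nonneg_left h2 hx0
  have h4 : x * (v * K ^ (-((1:ℝ) / 100)) / K) = (x * v) * (K ^ (-((1:ℝ) / 100)) / K) := by ring
  have h5 : K ^ (-((1:ℝ) / 100)) / K = K ^ (-((1:ℝ) / 100) - 1) := by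
    rw [Real.rpow_sub hK0, Real.rpow_one]
  have h6 : (x * v) * (K ^ (-((1:ℝ) / 100)) / K) ≤
      K ^ (1 - (1:ℝ) / 12) * K ^ (-((1:ℝ) / 100) - 1) := by
    rw [h5]
    exact mul_le_mul_of_nonneg_right hx (Real.rpow_nonneg hK0.le _)
  have h7 : K ^ (1 - (1:ℝ) / 12) * K ^ (-((1:ℝ) / 100) - 1) = K ^ (-((7:ℝ) / 75)) := by
    rw [← Real.rpow_add hK0]
    norm_num
  have h8 := hneg ((7:ℝ) / 75) (by norm_num) (by norm_num)
  linarith

theorem den_eq (b : ℕ) (c : ℤ) (hb : 0 < b) (hbc : Int.gcd b c = 1) :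
    ((c : ℚ) / (b : ℚ)).den = b := by
  have h1 := Rat.den_div_eq_of_coprime (a := c) (b := (b : ℤ)) (by exact_mod_cast hb) (by
    have : Int.gcd c b = 1 := by rw [Int.gcd_comm]; exact hbc
    exact this)
  have h2 : (((c : ℚ) / ((b : ℤ) : ℚ)).den : ℤ) = b := h1
  rw [Int.cast_natCast] at h2
  exact_mod_cast h2

end ItS62

theorem pr_S62 : S62 := by
  refine ⟨1, one_pos, ?_⟩
  intro θ μ n m b c hn hm hne hμn hμm hK1 hL hmax
  obtain ⟨hb0, hbc, hbK, hcf⟩ := hL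
  have hnR : (0:ℝ) < n := by exact_mod_cast hn
  have hmR : (0:ℝ) < m := by exact_mod_cast hm
  have hg : 0 < n.gcd m := Nat.gcd_pos_of_pos_left m hn
  have hu : 1 ≤ cf n m := Nat.div_pos (Nat.gcd_le_left m hn) hg
  have hv : 1 ≤ cf m n := by
    unfold cf
    rw [Nat.gcd_comm]
    exact Nat.div_pos (Nat.gcd_le_right n hm) hg
  have hLn : n.lcm m = n * cf m n := by
    unfold cf
    rw [Nat.gcd_comm m n, Nat.lcm, Nat.mul_div_assoc n (Nat.gcd_dvd_right n m)]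
  have hLm : n.lcm m = m * cf n m := by
    unfold cf
    rw [Nat.lcm, Nat.mul_comm n m, Nat.mul_div_assoc m (Nat.gcd_dvd_left n m)]
  have hRn : 0 < μ n / n := div_pos hμn hnR
  have hRm : 0 < μ m / m := div_pos hμm hmR
  have hKn : Kd μ n m = (n:ℝ) * (cf m n : ℕ) * max (μ n / n) (μ m / m) := by
    unfold Kd
    rw [hLn]
    push_cast
    ring
  have hKm : Kd μ n m = (m:ℝ) * (cf n m : ℕ) * max (μ n / n) (μ m / m) := by
    unfold Kd
    rw [hLm]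
    push_cast
    ring
  have hK0 : 0 < Kd μ n m := by
    rw [hKn]
    have h1 : (0:ℝ) < (cf m n : ℕ) := by exact_mod_cast hv
    have h2 : 0 < max (μ n / n) (μ m / m) := lt_max_of_lt_left hRn
    positivity
  have hv1 : (1:ℝ) ≤ (cf m n : ℕ) := by exact_mod_cast hv
  have hu1 : (1:ℝ) ≤ (cf n m : ℕ) := by exact_mod_cast hu
  have hmn : μ n ≤ Kd μ n m := by
    rw [hKn]
    calc μ n = (n:ℝ) * 1 * (μ n / n) := by field_simp
      _ ≤ (n:ℝ) * (cf m n : ℕ) * max (μ n / n) (μ m / m) := by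
        refine mul_le_mul (mul_le_mul_of_nonneg_left hv1 hnR.le) (le_max_left _ _) hRn.le ?_
        positivity
  have hmm : μ m ≤ Kd μ n m := by
    rw [hKm]
    calc μ m = (m:ℝ) * 1 * (μ m / m) := by field_simp
      _ ≤ (m:ℝ) * (cf n m : ℕ) * max (μ n / n) (μ m / m) := by
        refine mul_le_mul (mul_le_mul_of_nonneg_left hu1 hmR.le) (le_max_right _ _) hRm.le ?_
        positivity
  have hKp : 0 < (Kd μ n m) ^ (-((1:ℝ) / 100)) := Real.rpow_pos_of_pos hK0 _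
  have hAn : Kd μ n m ≤ (cf m n : ℕ) * (Kd μ n m) ^ (-((1:ℝ) / 100)) * μ n := by
    calc Kd μ n m = (n:ℝ) * (cf m n : ℕ) * max (μ n / n) (μ m / m) := hKn
      _ ≤ (n:ℝ) * (cf m n : ℕ) * ((Kd μ n m) ^ (-((1:ℝ) / 100)) * (μ n / n)) := by
        refine mul_le_mul_of_nonneg_left (le_trans hmax ?_) (by positivity)
        exact mul_le_mul_of_nonneg_left (min_le_left _ _) hKp.le
      _ = (cf m n : ℕ) * (Kd μ n m) ^ (-((1:ℝ) / 100)) * μ n := by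
        field_simp
  have hAm : Kd μ n m ≤ (cf n m : ℕ) * (Kd μ n m) ^ (-((1:ℝ) / 100)) * μ m := by
    calc Kd μ n m = (m:ℝ) * (cf n m : ℕ) * max (μ n / n) (μ m / m) := hKm
      _ ≤ (m:ℝ) * (cf n m : ℕ) * ((Kd μ n m) ^ (-((1:ℝ) / 100)) * (μ m / m)) := by
        refine mul_le_mul_of_nonneg_left (le_trans hmax ?_) (by positivity)
        exact mul_le_mul_of_nonneg_left (min_le_right _ _) hKp.le
      _ = (cf n m : ℕ) * (Kd μ n m) ^ (-((1:ℝ) / 100)) * μ m := by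
        field_simp
  have hxv : |θ - c / b| * (cf m n : ℕ) ≤ (Kd μ n m) ^ (1 - (1:ℝ) / 12) := by
    refine le_trans (mul_le_mul_of_nonneg_left ?_ (abs_nonneg _)) hcf
    exact_mod_cast le_max_right _ _
  have hxu : |θ - c / b| * (cf n m : ℕ) ≤ (Kd μ n m) ^ (1 - (1:ℝ) / 12) := by
    refine le_trans (mul_le_mul_of_nonneg_left ?_ (abs_nonneg _)) hcf
    exact_mod_cast le_max_left _ _
  obtain ⟨a1, a2, a3⟩ := ItS62.one_end _ _ _ _ _ hK0 hK1 hμn hmn hAn (abs_nonneg _) hxv hbK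
  obtain ⟨b1, b2, b3⟩ := ItS62.one_end _ _ _ _ _ hK0 hK1 hμm hmm hAm (abs_nonneg _) hxu hbK
  have hden := ItS62.den_eq b c hb0 hbc
  have hcast : (((c : ℚ) / (b : ℚ) : ℚ) : ℝ) = (c:ℝ) / b := by push_cast; ring
  refine ⟨⟨?_, ?_⟩, ⟨?_, ?_⟩, a3, b3⟩
  · rw [hden]; exact a1
  · rw [hcast]; exact a2
  · rw [hden]; exact b1
  · rw [hcast]; exact b2

end Pool.Agent.MP_0863b8.A
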