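import Pool.Agent.Work.MP_0863b8_nt.A.Stmts

/-! MP_0863b8_nt, block A, item S63: spacing of the labels. -/

set_option autoImplicit false

namespace Pool.Agent.MP_0863b8.A

namespace ItS63

theorem sep (D e : ℕ) (ρ ρ' : ℚ) (hD : 0 < D * e) (hne : ρ ≠ ρ') :
    (1 : ℚ) ≤ |((D * e : ℕ) : ℚ) * (ρ - ρ')| * (((D : ℚ) * ρ).den * (((D * e : ℕ) : ℚ) * ρ').den) := by
  set q := (D : ℚ) * ρ with hq
  set q' := ((D * e : ℕ) : ℚ) * ρ' with hq'
  have h1 : ((D * e : ℕ) : ℚ) * (ρ - ρ') * (q.den * q'.den)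
      = ((e * q.num * q'.den - q'.num * q.den : ℤ) : ℚ) := by
    have h2 : q * q.den = q.num := Rat.mul_den_eq_num q
    have h3 : q' * q'.den = q'.num := Rat.mul_den_eq_num q'
    have h4 : ((D * e : ℕ) : ℚ) * (ρ - ρ') = e * q - q' := by
      rw [hq, hq']; push_cast; ring
    rw [h4]
    push_cast
    rw [← h2, ← h3]
    ring
  have hDr : ((D * e : ℕ) : ℚ) ≠ 0 := by exact_mod_cast hD.ne'
  have h5 : ((D * e : ℕ) : ℚ) * (ρ - ρ') * (q.den * q'.den) ≠ 0 :=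
    mul_ne_zero (mul_ne_zero hDr (sub_ne_zero.2 hne))
      (mul_ne_zero (by exact_mod_cast q.den_ne_zero) (by exact_mod_cast q'.den_ne_zero))
  have h6 : (e * q.num * q'.den - q'.num * q.den : ℤ) ≠ 0 := by
    intro h0; rw [h1, h0] at h5; exact h5 (by norm_num)
  have h7 : (0 : ℚ) ≤ (q.den * q'.den : ℚ) := by positivity
  rw [← abs_of_nonneg h7, ← abs_mul, h1]
  exact_mod_cast Int.one_le_abs h6

end ItS63

theorem pr_S63 : S63 := by
  refine ⟨1 / 100, by norm_num, ?_⟩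
  intro κ0 θ W L hκ0 hκ1 hW hL x hx y hy hdvd hne
  obtain ⟨hL1, -, -⟩ := hL
  obtain ⟨hx1, hx2, hx3, hx4⟩ := hL1 x hx
  obtain ⟨hy1, hy2, hy3, hy4⟩ := hL1 y hy
  by_contra hcon
  push_neg at hcon
  obtain ⟨hc1, hc2⟩ := max_lt_iff.1 hcon
  set X := W / y.1 with hX
  have hy1r : (0 : ℝ) < y.1 := by exact_mod_cast hy1
  have hX100 : 100 ≤ X := by
    refine le_trans ?_ hy2
    rw [le_div_iff₀ hκ0]; linarith
  have hXpos : 0 < X := by linarith
  set t := X ^ ((1:ℝ) / 30) with ht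
  have htpos : 0 < t := Real.rpow_pos_of_pos hXpos _
  have e30 : X = t ^ 30 := by
    rw [ht, ← Real.rpow_natCast, ← Real.rpow_mul hXpos.le]; norm_num
  have e10 : X ^ ((1:ℝ) / 3) = t ^ 10 := by
    rw [ht, ← Real.rpow_natCast, ← Real.rpow_mul hXpos.le]; norm_num
  have e3 : X ^ ((1:ℝ) / 10) = t ^ 3 := by
    rw [ht, ← Real.rpow_natCast, ← Real.rpow_mul hXpos.le]; norm_num
  have ht1 : 1 ≤ t := by
    by_contra h
    push_neg at h
    have h1 : t ^ 30 ≤ 1 := pow_le_one₀ htpos.le h.le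
    linarith
  rw [e10] at hc1 hc2
  rw [e3] at hy3 hy4
  obtain ⟨e, he⟩ := hdvd
  have hsep := ItS63.sep x.1 e x.2 y.2 (by rw [← he]; exact hy1) hne
  rw [← he] at hsep
  have hsep' : (1 : ℝ) ≤ |(y.1 : ℝ) * ((x.2 : ℝ) - y.2)| * ((dn x : ℝ) * (dn y : ℝ)) := by
    unfold dn
    exact_mod_cast hsep
  have hdx : (0 : ℝ) ≤ dn x := Nat.cast_nonneg _
  have hdy : (0 : ℝ) ≤ dn y := Nat.cast_nonneg _
  have htri : |((x.2 : ℝ) - y.2)| * W ≤ t ^ 10 + t ^ 3 := by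
    have h1 : |((x.2 : ℝ) - y.2)| ≤ |θ - x.2| + |θ - y.2| := by
      have h2 : ((x.2 : ℝ) - y.2) = (θ - y.2) - (θ - x.2) := by ring
      rw [h2]
      exact (abs_sub _ _).trans (by linarith)
    calc |((x.2 : ℝ) - y.2)| * W ≤ (|θ - x.2| + |θ - y.2|) * W :=
          mul_le_mul_of_nonneg_right h1 hW.le
      _ = |θ - x.2| * W + |θ - y.2| * W := by ring
      _ ≤ _ := add_le_add hc2.le hy4
  have hXle : X ≤ (|((x.2 : ℝ) - y.2)| * W) * ((dn x : ℝ) * (dn y : ℝ)) := by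
    have h1 : X = X * 1 := by ring
    rw [h1]
    refine (mul_le_mul_of_nonneg_left hsep' hXpos.le).trans_eq ?_
    rw [abs_mul, abs_of_pos hy1r, hX]
    field_simp
  have h2 : X ≤ (t ^ 10 + t ^ 3) * (t ^ 10 * t ^ 3) := by
    refine hXle.trans (mul_le_mul htri (mul_le_mul hc1.le hy3 hdy (by positivity))
      (mul_nonneg hdx hdy) (by positivity))
  have h3 : t ^ 3 ≤ t ^ 10 := pow_le_pow_right₀ ht1 (by norm_num)
  have h4 : t ^ 30 ≤ 2 * t ^ 23 := by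
    rw [← e30]
    refine h2.trans ?_
    have h5 : (t ^ 10 + t ^ 3) * (t ^ 10 * t ^ 3) ≤ (t ^ 10 + t ^ 10) * (t ^ 10 * t ^ 3) :=
      mul_le_mul_of_nonneg_right (by linarith) (by positivity)
    refine h5.trans_eq ?_
    ring
  have h6 : t ^ 7 ≤ 2 := by
    have h7 : t ^ 30 = t ^ 7 * t ^ 23 := by ring
    rw [h7] at h4
    exact le_of_mul_le_mul_right h4 (by positivity)
  have h8 : t ^ 2 ≤ t ^ 7 := pow_le_pow_right₀ ht1 (by norm_num)
  have h9 : t ^ 30 = (t ^ 7) ^ 4 * t ^ 2 := by ring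
  have h10 : (t ^ 7) ^ 4 ≤ 2 ^ 4 := pow_le_pow_left₀ (by positivity) h6 4
  have h11 : t ^ 30 ≤ 2 ^ 4 * 2 := by
    rw [h9]
    exact mul_le_mul h10 (h8.trans h6) (by positivity) (by positivity)
  rw [← e30] at h11
  norm_num at h11
  linarith

end Pool.Agent.MP_0863b8.A
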