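import Pool.Agent.Work.MP_0863b8_nt.A.Stmts
import Pool.Agent.Work.MP_0863b8_nt.A.I_S61

/-! MP_0863b8_nt, block A, item S65: explained pairs are killed or small. -/

set_option autoImplicit false

namespace Pool.Agent.MP_0863b8.A

namespace ItS65

theorem rgh_dvd (P : ℕ) {u : ℕ} (hu : u ≠ 0) : rgh P u ∣ u := by
  have h1 : ∏ p ∈ u.primeFactors, p ^ u.factorization p = u :=
    Nat.factorization_prod_pow_eq_self hu
  unfold rgh
  conv_rhs => rw [← h1]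
  exact Finset.prod_dvd_prod_of_subset _ _ _ (Finset.filter_subset _ _)

theorem prime_rgh {P u p : ℕ} (hp : p.Prime) (h : p ∣ rgh P u) : P < p ∧ p ∣ u := by
  unfold rgh at h
  obtain ⟨q, hq, hpq⟩ := (Nat.Prime.prime hp).exists_mem_finset_dvd h
  obtain ⟨hq1, hq2⟩ := Finset.mem_filter.1 hq
  have h2 : p = q := (Nat.prime_dvd_prime_iff_eq hp (Nat.prime_of_mem_primeFactors hq1)).1
    (hp.dvd_of_dvd_pow hpq)
  rw [h2]
  exact ⟨hq2, Nat.dvd_of_mem_primeFactors hq1⟩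

theorem dn_one {b : ℕ} {c : ℤ} (hb : 0 < b) (hg : Int.gcd b c = 1) :
    dn (1, (c : ℚ) / b) = b := by
  unfold dn
  have h1 : ((((1 : ℕ), (c : ℚ) / b) : ℕ × ℚ).1 : ℚ) * (((1 : ℕ), (c : ℚ) / b) : ℕ × ℚ).2
      = (c : ℚ) / ((b : ℤ) : ℚ) := by
    push_cast; ring
  rw [h1]
  have h2 := Rat.den_div_eq_of_coprime (a := c) (b := (b : ℤ)) (by exact_mod_cast hb)
    (by rw [Int.gcd_comm] at hg; simpa [Int.gcd] using hg)
  exact_mod_cast h2

theorem Kd_comm (μ : ℕ → ℝ) (n m : ℕ) : Kd μ m n = Kd μ n m := by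
  unfold Kd; rw [Nat.lcm_comm, max_comm]

theorem rat_comm (μ : ℕ → ℝ) (n m : ℕ) : rat μ m n = rat μ n m := by
  unfold rat; rw [max_comm, min_comm]

theorem K_le {μ : ℕ → ℝ} {n m : ℕ} (hn : 0 < n) (hm : 0 < m) (hμn : 0 < μ n) (hμm : 0 < μ m) :
    Kd μ n m ≤ (cf m n : ℝ) * μ n * rat μ n m := by
  have hnr : (0 : ℝ) < n := by exact_mod_cast hn
  have hmr : (0 : ℝ) < m := by exact_mod_cast hm
  have hmin : 0 < min (μ n / n) (μ m / m) := lt_min (by positivity) (by positivity)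
  have h1 : ((n.lcm m : ℕ) : ℝ) = n * cf m n := by exact_mod_cast (ItS61.mul_cf n m).symm
  have h2 : max (μ n / n) (μ m / m) = rat μ n m * min (μ n / n) (μ m / m) := by
    unfold rat; field_simp
  have hrat : 0 ≤ rat μ n m := by
    unfold rat
    exact div_nonneg (le_trans (by positivity) (le_max_left (μ n / n) (μ m / m))) hmin.le
  have h3 : max (μ n / n) (μ m / m) ≤ rat μ n m * (μ n / n) := by
    rw [h2]; exact mul_le_mul_of_nonneg_left (min_le_left _ _) hrat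
  unfold Kd
  rw [h1]
  calc (n : ℝ) * cf m n * max (μ n / n) (μ m / m)
      ≤ (n : ℝ) * cf m n * (rat μ n m * (μ n / n)) :=
        mul_le_mul_of_nonneg_left h3 (by positivity)
    _ = _ := by field_simp

theorem side {κ1 : ℝ}
    (h3 : ∀ (κ0 θ W : ℝ) (L : Finset (ℕ × ℚ)), 0 < κ0 → κ0 ≤ κ1 → 0 < W →
      LabOK κ0 θ W L → ∀ x ∈ L, ∀ y ∈ L, x.1 ∣ y.1 → x.2 ≠ y.2 →
      (W / y.1) ^ ((1:ℝ) / 3) ≤ max (dn x : ℝ) (|θ - (x.2 : ℝ)| * W))
    {P : ℕ} {C6 κ0 θ : ℝ} {μ : ℕ → ℝ} {Lab : ℕ → Finset (ℕ × ℚ)} {n m q1 b : ℕ} {c k : ℤ}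
    (hκ0 : 0 < κ0) (hκ1 : κ0 ≤ κ1) (hn : 0 < n) (hm : 0 < m) (hμn : 0 < μ n) (hμm : 0 < μ m)
    (hL : LabOK κ0 θ (1 / μ n) (Lab n)) (hmem : (1, (c : ℚ) / b) ∈ Lab n)
    (hb : 0 < b) (hg : Int.gcd b c = 1) (hbM : (b : ℝ) ≤ ((max (cf n m) (cf m n) : ℕ) : ℝ))
    (hθ : |θ - c / b| ≤ 2 * Kd μ n m)
    (hrat : rat μ n m ≤ ((max (cf n m) (cf m n) : ℕ) : ℝ) ^ 2)
    (hw : 2 * ((max (cf n m) (cf m n) : ℕ) : ℝ) ^ ((3:ℝ) / 10) < (rgh P (cf n m) : ℝ))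
    (hdiv : (cf n m : ℤ) ∣ b * k + c)
    (hpr : ∀ p : ℕ, p.Prime → p ∣ cf n m → p < q1 ∧ (p : ℝ) ≤ (1 / μ n) ^ C6) :
    Kof P C6 μ Lab n (rgh P (cf n m)) k ∧ R.Sm q1 (rgh P (cf n m)) := by
  have hu : 0 < cf n m := ItS61.cf_pos hn
  have hv : 0 < cf m n := ItS61.cf_pos hm
  have hM1 : (1 : ℝ) ≤ ((max (cf n m) (cf m n) : ℕ) : ℝ) := by
    have : 1 ≤ max (cf n m) (cf m n) := le_trans hu (le_max_left _ _)
    exact_mod_cast this
  set Mx := ((max (cf n m) (cf m n) : ℕ) : ℝ) with hMx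
  have hwu : rgh P (cf n m) ∣ cf n m := rgh_dvd P hu.ne'
  have hMp : (1 : ℝ) ≤ Mx ^ ((3:ℝ) / 10) := Real.one_le_rpow hM1 (by norm_num)
  have hW : 0 < 1 / μ n := by positivity
  refine ⟨⟨hwu.trans ⟨n.gcd m, ?_⟩, (1, (c : ℚ) / b), hmem, ⟨?_, ?_, ?_⟩, ?_⟩, ?_⟩
  · rw [mul_comm]; exact (ItS61.gcd_mul_cf n m).symm
  · have : (1 : ℝ) < rgh P (cf n m) := by linarith
    exact_mod_cast this
  · intro p hp hpw
    obtain ⟨h5, h6⟩ := prime_rgh hp hpw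
    refine ⟨h5, ?_⟩
    have := (hpr p hp h6).2
    simpa using this
  · intro y hy hdvd hne
    have h5 := h3 κ0 θ (1 / μ n) (Lab n) hκ0 hκ1 hW hL _ hmem y hy hdvd (Ne.symm hne)
    rw [dn_one hb hg] at h5
    have h6 : |θ - (((1 : ℕ), (c : ℚ) / b) : ℕ × ℚ).2| * (1 / μ n) ≤ 2 * Mx ^ 3 := by
      have e : ((((1 : ℕ), (c : ℚ) / b) : ℕ × ℚ).2 : ℝ) = (c : ℝ) / b := by push_cast; rfl
      rw [e]
      have h7 : Kd μ n m ≤ Mx * μ n * Mx ^ 2 := by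
        refine (K_le hn hm hμn hμm).trans ?_
        have hvM : (cf m n : ℝ) ≤ Mx := by
          rw [hMx]; exact_mod_cast le_max_right (cf n m) (cf m n)
        have hr0 : 0 ≤ rat μ n m := by
          unfold rat
          have hnr : (0 : ℝ) < n := by exact_mod_cast hn
          have hmr : (0 : ℝ) < m := by exact_mod_cast hm
          exact div_nonneg (le_trans (by positivity) (le_max_left (μ n / n) (μ m / m)))
            (lt_min (by positivity) (by positivity)).le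
        exact mul_le_mul (mul_le_mul_of_nonneg_right hvM hμn.le) hrat hr0 (by positivity)
      calc |θ - c / b| * (1 / μ n) ≤ (2 * (Mx * μ n * Mx ^ 2)) * (1 / μ n) :=
            mul_le_mul_of_nonneg_right (hθ.trans (by linarith)) hW.le
        _ = 2 * Mx ^ 3 := by field_simp
    have h7 : (b : ℝ) ≤ 2 * Mx ^ 3 := by
      have h8 : Mx ≤ Mx ^ 3 := le_self_pow₀ hM1 (by norm_num)
      linarith
    have h8 : (1 / μ n / y.1) ^ ((1:ℝ) / 3) ≤ 2 * Mx ^ 3 := h5.trans (max_le h7 h6)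
    have hX0 : 0 ≤ 1 / μ n / y.1 := by positivity
    have h9 : (1 / μ n / y.1) ^ ((1:ℝ) / 30) = ((1 / μ n / y.1) ^ ((1:ℝ) / 3)) ^ ((1:ℝ) / 10) := by
      rw [← Real.rpow_mul hX0]; norm_num
    have h10 : (2 * Mx ^ 3) ^ ((1:ℝ) / 10) ≤ 2 * Mx ^ ((3:ℝ) / 10) := by
      rw [Real.mul_rpow (by norm_num) (by positivity)]
      have h11 : (Mx ^ 3) ^ ((1:ℝ) / 10) = Mx ^ ((3:ℝ) / 10) := by
        rw [← Real.rpow_natCast, ← Real.rpow_mul (by positivity)]; norm_num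
      rw [h11]
      have h12 : (2 : ℝ) ^ ((1:ℝ) / 10) ≤ 2 := by
        calc (2 : ℝ) ^ ((1:ℝ) / 10) ≤ 2 ^ (1 : ℝ) :=
              Real.rpow_le_rpow_of_exponent_le (by norm_num) (by norm_num)
          _ = 2 := Real.rpow_one 2
      exact mul_le_mul_of_nonneg_right h12 (by positivity)
    rw [h9]
    exact ((Real.rpow_le_rpow (Real.rpow_nonneg hX0 _) h8 (by norm_num)).trans h10).trans hw.le
  · have hwdiv : (rgh P (cf n m) : ℤ) ∣ b * k + c :=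
      (Int.natCast_dvd_natCast.2 hwu).trans hdiv
    refine ⟨b, c, ?_, ?_, hwdiv⟩
    · obtain ⟨d, hd⟩ := hwdiv
      have hbc : IsCoprime (b : ℤ) c := Int.isCoprime_iff_gcd_eq_one.2 hg
      have h5 : IsCoprime (b : ℤ) (b * k + c) := by
        have := hbc.add_mul_left_right k
        rwa [add_comm] at this
      rw [hd] at h5
      exact h5.of_mul_right_left
    · have hb0 : (b : ℚ) ≠ 0 := by exact_mod_cast hb.ne'
      push_cast
      field_simp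
  · intro p hp hpw
    exact (hpr p hp (prime_rgh hp hpw).2).1

end ItS65

theorem pr_S65 (h1 : S61) (h3 : S63) : S65 := by
  obtain ⟨κa, hκa, h1⟩ := h1
  obtain ⟨κb, hκb, h3⟩ := h3
  intro P C6 hC6
  refine ⟨min κa κb, lt_min hκa hκb, ?_⟩
  intro κ0 θ μ Lab n m q1 b c hκ0 hκ1 hn hm hnm hμn hμm hLn hLm hK hL hmn hmm hpr
  by_contra hcon
  push_neg at hcon
  obtain ⟨hov, hsm⟩ := hcon
  have hne : (R.Bs θ μ (Kof P C6 μ Lab) q1 n ∩ R.Bs θ μ (Kof P C6 μ Lab) q1 m ∩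
      Set.Ico (0:ℝ) 1).Nonempty := by
    by_contra h
    rw [Set.not_nonempty_iff_eq_empty] at h
    apply hov
    unfold R.ov
    rw [h]
    simp
  obtain ⟨t, ⟨⟨k, hk, hkk⟩, ⟨l, hl, hlk⟩⟩, -⟩ := hne
  obtain ⟨hd1, hd2, hbM, hθ⟩ := h1 θ μ n m b c hn hm hnm hμn hμm (hK.trans (hκ1.trans (min_le_left _ _)))
    hL t k l hk hl
  obtain ⟨hb, hg, -, -⟩ := hL
  unfold Small at hsm
  push_neg at hsm
  obtain ⟨hrat, hrg⟩ := hsm
  by_cases hu : (rgh P (cf n m) : ℝ) ≤ 2 * ((max (cf n m) (cf m n) : ℕ) : ℝ) ^ ((3:ℝ) / 10)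
  · have hv := hrg hu
    have hs := ItS65.side (P := P) (C6 := C6) (κ0 := κ0) (θ := θ) (μ := μ) (Lab := Lab) (n := m)
      (m := n) (q1 := q1) (b := b) (c := c) (k := l) h3 hκ0 (hκ1.trans (min_le_right _ _)) hm hn
      hμm hμn hLm hmm hb hg (by rw [max_comm]; exact hbM) (by rw [ItS65.Kd_comm]; exact hθ)
      (by rw [ItS65.rat_comm, max_comm]; exact hrat) (by rw [max_comm (cf m n)]; exact hv) hd2
      (fun p hp hpd => ⟨(hpr p hp (hpd.mul_left _)).1, (hpr p hp (hpd.mul_left _)).2.2⟩)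
    exact hlk _ _ hs.1 hs.2 (Int.ModEq.refl _)
  · push_neg at hu
    have hs := ItS65.side (P := P) (C6 := C6) (κ0 := κ0) (θ := θ) (μ := μ) (Lab := Lab) (n := n)
      (m := m) (q1 := q1) (b := b) (c := c) (k := k) h3 hκ0 (hκ1.trans (min_le_right _ _)) hn hm
      hμn hμm hLn hmn hb hg hbM hθ hrat hu hd1
      (fun p hp hpd => ⟨(hpr p hp (hpd.mul_right _)).1, (hpr p hp (hpd.mul_right _)).2.1⟩)
    exact hkk _ _ hs.1 hs.2 (Int.ModEq.refl _)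

end Pool.Agent.MP_0863b8.A
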