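import Pool.Agent.Work.MP_0863b8_nt.A.Stmts

set_option autoImplicit false

namespace Pool.Agent.MP_0863b8.A

namespace ItS66

/-- the charging weight -/
noncomputable def G (P u : ℕ) : ℝ := (u : ℝ) ^ (-((1:ℝ) / 10)) * (rgh P u : ℝ) ^ (-((11:ℝ) / 10))

/-- smooth part -/
noncomputable def smp (P u : ℕ) : ℕ :=
  ∏ p ∈ u.primeFactors.filter (fun p => ¬ P < p), p ^ u.factorization p

lemma rgh_mul_smp (P u : ℕ) (hu : u ≠ 0) : rgh P u * smp P u = u := by
  unfold rgh smp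
  rw [Finset.prod_filter_mul_prod_filter_not]
  exact Nat.prod_factorization_pow_eq_self hu

lemma rgh_pos (P u : ℕ) : 0 < rgh P u := by
  unfold rgh
  apply Finset.prod_pos
  intro p hp
  exact pow_pos (Nat.prime_of_mem_primeFactors (Finset.mem_filter.1 hp).1).pos _

lemma smp_mem (P u : ℕ) : smp P u ∈ Nat.smoothNumbers (P + 1) := by
  rw [Nat.mem_smoothNumbers']
  intro p hp hd
  unfold smp at hd
  rw [Prime.dvd_finsetProd_iff hp.prime] at hd
  obtain ⟨q, hq, hd⟩ := hd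
  rw [Finset.mem_filter] at hq
  have hqp := Nat.prime_of_mem_primeFactors hq.1
  have := (Nat.prime_dvd_prime_iff_eq hp hqp).1 (hp.dvd_of_dvd_pow hd)
  omega

lemma smp_pos (P u : ℕ) : 0 < smp P u :=
  Nat.pos_of_ne_zero (Nat.ne_zero_of_mem_smoothNumbers (smp_mem P u))

/-- the monoid hom m ↦ m^(-1/10) -/
noncomputable def fh : ℕ →* ℝ where
  toFun m := (m : ℝ) ^ (-((1:ℝ) / 10))
  map_one' := by simp
  map_mul' a b := by
    push_cast
    exact Real.mul_rpow (Nat.cast_nonneg _) (Nat.cast_nonneg _)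

lemma smooth_bound (P : ℕ) : ∃ A : ℝ, 0 ≤ A ∧ ∀ F : Finset ℕ, (∀ s ∈ F, s ∈ Nat.smoothNumbers (P + 1)) →
    ∑ s ∈ F, (s : ℝ) ^ (-((1:ℝ) / 10)) ≤ A := by
  have h := (EulerProduct.summable_and_hasSum_smoothNumbers_prod_primesBelow_geometric
    (f := fh) (by
      intro p hp
      have h1 : (1:ℝ) < p := by exact_mod_cast hp.one_lt
      have : ‖fh p‖ = (p : ℝ) ^ (-((1:ℝ) / 10)) := by
        change ‖(p : ℝ) ^ (-((1:ℝ) / 10))‖ = _
        rw [Real.norm_eq_abs, abs_of_nonneg (by positivity)]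
      rw [this]
      exact Real.rpow_lt_one_of_one_lt_of_neg h1 (by norm_num)) (P + 1)).1
  have h2 : Summable (Set.indicator ((P + 1).smoothNumbers) (fun m : ℕ => ‖fh m‖)) :=
    (summable_subtype_iff_indicator).1 h
  refine ⟨∑' m, Set.indicator ((P + 1).smoothNumbers) (fun m : ℕ => ‖fh m‖) m,
    tsum_nonneg (fun m => Set.indicator_nonneg (fun _ _ => norm_nonneg _) _), ?_⟩
  intro F hF
  refine le_trans (le_of_eq ?_) (h2.sum_le_tsum F
    (fun m _ => Set.indicator_nonneg (fun _ _ => norm_nonneg _) _))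
  apply Finset.sum_congr rfl
  intro s hs
  rw [Set.indicator_of_mem (hF s hs)]
  change _ = ‖(s : ℝ) ^ (-((1:ℝ) / 10))‖
  rw [Real.norm_eq_abs, abs_of_nonneg (by positivity)]

lemma rough_bound : ∃ B : ℝ, 0 ≤ B ∧ ∀ F : Finset ℕ,
    ∑ s ∈ F, (s : ℝ) ^ (-((12:ℝ) / 10)) ≤ B := by
  have h : Summable (fun n : ℕ => (n : ℝ) ^ (-((12:ℝ) / 10))) := by
    rw [Real.summable_nat_rpow]; norm_num
  refine ⟨_, tsum_nonneg (fun m => by positivity), fun F => h.sum_le_tsum F (fun m _ => by positivity)⟩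

lemma G_nonneg (P u : ℕ) : 0 ≤ G P u := by unfold G; positivity

lemma G_eq (P u : ℕ) (hu : u ≠ 0) :
    G P u = (smp P u : ℝ) ^ (-((1:ℝ) / 10)) * (rgh P u : ℝ) ^ (-((12:ℝ) / 10)) := by
  have h1 : (u : ℝ) = (rgh P u : ℝ) * smp P u := by exact_mod_cast (rgh_mul_smp P u hu).symm
  have hr : (0:ℝ) < rgh P u := by exact_mod_cast rgh_pos P u
  have hs : (0:ℝ) < smp P u := by exact_mod_cast smp_pos P u
  unfold G
  rw [show (u : ℝ) ^ (-((1:ℝ) / 10)) = ((rgh P u : ℝ) * smp P u) ^ (-((1:ℝ) / 10)) by rw [← h1],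
    Real.mul_rpow hr.le hs.le]
  have : (rgh P u : ℝ) ^ (-((12:ℝ) / 10)) =
      (rgh P u : ℝ) ^ (-((1:ℝ) / 10)) * (rgh P u : ℝ) ^ (-((11:ℝ) / 10)) := by
    rw [← Real.rpow_add hr]; norm_num
  rw [this]; ring

lemma G_bound (P : ℕ) : ∃ C : ℝ, 0 ≤ C ∧ ∀ F : Finset ℕ, (∀ u ∈ F, u ≠ 0) →
    ∑ u ∈ F, G P u ≤ C := by
  classical
  obtain ⟨A, hA, hA'⟩ := smooth_bound P
  obtain ⟨B, hB, hB'⟩ := rough_bound
  refine ⟨A * B, mul_nonneg hA hB, fun F hF => ?_⟩
  have hinj : Set.InjOn (fun u => (smp P u, rgh P u)) (F : Set ℕ) := by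
    intro u hu v hv huv
    simp only [Prod.mk.injEq] at huv
    rw [← rgh_mul_smp P u (hF u hu), ← rgh_mul_smp P v (hF v hv), huv.1, huv.2]
  calc ∑ u ∈ F, G P u = ∑ u ∈ F, (fun z : ℕ × ℕ => (z.1 : ℝ) ^ (-((1:ℝ) / 10)) *
        (z.2 : ℝ) ^ (-((12:ℝ) / 10))) (smp P u, rgh P u) := by
        apply Finset.sum_congr rfl
        intro u hu
        exact G_eq P u (hF u hu)
    _ = ∑ z ∈ F.image (fun u => (smp P u, rgh P u)), (z.1 : ℝ) ^ (-((1:ℝ) / 10)) *
        (z.2 : ℝ) ^ (-((12:ℝ) / 10)) := by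
        rw [Finset.sum_image hinj]
    _ ≤ ∑ z ∈ (F.image (smp P)) ×ˢ (F.image (rgh P)), (z.1 : ℝ) ^ (-((1:ℝ) / 10)) *
        (z.2 : ℝ) ^ (-((12:ℝ) / 10)) := by
        apply Finset.sum_le_sum_of_subset_of_nonneg
        · intro z hz
          rw [Finset.mem_image] at hz
          obtain ⟨u, hu, rfl⟩ := hz
          exact Finset.mem_product.2 ⟨Finset.mem_image_of_mem _ hu, Finset.mem_image_of_mem _ hu⟩
        · intro z _ _
          positivity
    _ = (∑ s ∈ F.image (smp P), (s : ℝ) ^ (-((1:ℝ) / 10))) *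
        ∑ r ∈ F.image (rgh P), (r : ℝ) ^ (-((12:ℝ) / 10)) := by
        rw [Finset.sum_product, Finset.sum_mul_sum]
    _ ≤ A * B := by
        apply mul_le_mul (hA' _ _) (hB' _) (Finset.sum_nonneg fun _ _ => by positivity) hA
        intro s hs
        rw [Finset.mem_image] at hs
        obtain ⟨u, _, rfl⟩ := hs
        exact smp_mem P u

lemma one_le_G_a {P u v : ℕ} (hu : 0 < u) (hv : 0 < v) :
    1 / ((u : ℝ) * ((max u v : ℕ) : ℝ) ^ 2) ≤ G P u * G P v := by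
  have key : ∀ w : ℕ, 0 < w → (w : ℝ) ^ (-((3:ℝ) / 2)) ≤ G P w := by
    intro w hw
    have hw1 : (1:ℝ) ≤ w := by exact_mod_cast hw
    have hr : (0:ℝ) < rgh P w := by exact_mod_cast rgh_pos P w
    have hrw : (rgh P w : ℝ) ≤ w := by
      have := Nat.le_of_dvd hw (Dvd.intro _ (rgh_mul_smp P w hw.ne'))
      exact_mod_cast this
    have h1 : (w : ℝ) ^ (-((11:ℝ) / 10)) ≤ (rgh P w : ℝ) ^ (-((11:ℝ) / 10)) :=
      Real.rpow_le_rpow_of_nonpos hr hrw (by norm_num)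
    calc (w : ℝ) ^ (-((3:ℝ) / 2)) ≤ (w : ℝ) ^ (-((12:ℝ) / 10)) :=
          Real.rpow_le_rpow_of_exponent_le hw1 (by norm_num)
      _ = (w : ℝ) ^ (-((1:ℝ) / 10)) * (w : ℝ) ^ (-((11:ℝ) / 10)) := by
          rw [← Real.rpow_add (by linarith)]; norm_num
      _ ≤ G P w := by
          unfold G
          exact mul_le_mul_of_nonneg_left h1 (by positivity)
  have hu1 : (1:ℝ) ≤ u := by exact_mod_cast hu
  have hv1 : (1:ℝ) ≤ v := by exact_mod_cast hv
  have hM1 : (u : ℝ) ≤ ((max u v : ℕ) : ℝ) := by exact_mod_cast le_max_left u v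
  have hM2 : (v : ℝ) ≤ ((max u v : ℕ) : ℝ) := by exact_mod_cast le_max_right u v
  have h2 : (u : ℝ) ^ ((1:ℝ) / 2) * (v : ℝ) ^ ((3:ℝ) / 2) ≤ ((max u v : ℕ) : ℝ) ^ 2 := by
    have hM0 : (0:ℝ) < ((max u v : ℕ) : ℝ) := by linarith
    calc (u : ℝ) ^ ((1:ℝ) / 2) * (v : ℝ) ^ ((3:ℝ) / 2)
        ≤ ((max u v : ℕ) : ℝ) ^ ((1:ℝ) / 2) * ((max u v : ℕ) : ℝ) ^ ((3:ℝ) / 2) := by
          apply mul_le_mul (Real.rpow_le_rpow (by linarith) hM1 (by norm_num))
            (Real.rpow_le_rpow (by linarith) hM2 (by norm_num)) (by positivity) (by positivity)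
      _ = ((max u v : ℕ) : ℝ) ^ 2 := by
          rw [← Real.rpow_add hM0, ← Real.rpow_natCast]; norm_num
  calc 1 / ((u : ℝ) * ((max u v : ℕ) : ℝ) ^ 2)
      ≤ 1 / ((u : ℝ) * ((u : ℝ) ^ ((1:ℝ) / 2) * (v : ℝ) ^ ((3:ℝ) / 2))) := by
        apply one_div_le_one_div_of_le (by positivity)
        exact mul_le_mul_of_nonneg_left h2 (by linarith)
    _ = (u : ℝ) ^ (-((3:ℝ) / 2)) * (v : ℝ) ^ (-((3:ℝ) / 2)) := by
        rw [Real.rpow_neg (by linarith), Real.rpow_neg (by linarith)]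
        have : (u : ℝ) ^ ((3:ℝ) / 2) = u * (u : ℝ) ^ ((1:ℝ) / 2) := by
          have h3 : (u : ℝ) ^ ((3:ℝ) / 2) = (u : ℝ) ^ ((1:ℝ) + 1 / 2) := by norm_num
          rw [h3, Real.rpow_add (by linarith), Real.rpow_one]
        rw [this]
        field_simp
    _ ≤ G P u * G P v := by
        apply mul_le_mul (key u hu) (key v hv) (by positivity) (G_nonneg P u)

lemma one_le_G_b {P u v : ℕ} (hu : 0 < u) (hv : 0 < v) (hvu : v ≤ u)
    (h1 : (rgh P u : ℝ) ≤ 2 * (u : ℝ) ^ ((3:ℝ) / 10))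
    (h2 : (rgh P v : ℝ) ≤ 2 * (u : ℝ) ^ ((3:ℝ) / 10)) :
    1 / (u : ℝ) ≤ 8 * (G P u * G P v) := by
  have hu1 : (1:ℝ) ≤ u := by exact_mod_cast hu
  have hv1 : (1:ℝ) ≤ v := by exact_mod_cast hv
  have hru : (0:ℝ) < rgh P u := by exact_mod_cast rgh_pos P u
  have hrv : (0:ℝ) < rgh P v := by exact_mod_cast rgh_pos P v
  have hvu' : (v:ℝ) ≤ u := by exact_mod_cast hvu
  have k1 : (2 * (u : ℝ) ^ ((3:ℝ) / 10)) ^ (-((11:ℝ) / 10)) ≤ (rgh P u : ℝ) ^ (-((11:ℝ) / 10)) :=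
    Real.rpow_le_rpow_of_nonpos hru h1 (by norm_num)
  have k2 : (2 * (u : ℝ) ^ ((3:ℝ) / 10)) ^ (-((11:ℝ) / 10)) ≤ (rgh P v : ℝ) ^ (-((11:ℝ) / 10)) :=
    Real.rpow_le_rpow_of_nonpos hrv h2 (by norm_num)
  have k3 : (u : ℝ) ^ (-((1:ℝ) / 10)) ≤ (v : ℝ) ^ (-((1:ℝ) / 10)) :=
    Real.rpow_le_rpow_of_nonpos (by linarith) hvu' (by norm_num)
  have e1 : (2 * (u : ℝ) ^ ((3:ℝ) / 10)) ^ (-((11:ℝ) / 10)) =
      (2:ℝ) ^ (-((11:ℝ) / 10)) * (u : ℝ) ^ (-((33:ℝ) / 100)) := by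
    rw [Real.mul_rpow (by norm_num) (by positivity), ← Real.rpow_mul (by linarith)]
    norm_num
  have e2 : (1:ℝ) / 8 ≤ (2:ℝ) ^ (-((11:ℝ) / 10)) * (2:ℝ) ^ (-((11:ℝ) / 10)) := by
    rw [← Real.rpow_add (by norm_num)]
    calc (1:ℝ) / 8 = (2:ℝ) ^ (-(3:ℝ)) := by
          rw [Real.rpow_neg (by norm_num)]
          norm_num
      _ ≤ _ := Real.rpow_le_rpow_of_exponent_le (by norm_num) (by norm_num)
  have e3 : 1 / (u : ℝ) ≤ (u : ℝ) ^ (-((1:ℝ) / 10)) * (u : ℝ) ^ (-((33:ℝ) / 100)) *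
      ((u : ℝ) ^ (-((1:ℝ) / 10)) * (u : ℝ) ^ (-((33:ℝ) / 100))) := by
    rw [← Real.rpow_add (by linarith), ← Real.rpow_add (by linarith), one_div,
      ← Real.rpow_neg_one]
    exact Real.rpow_le_rpow_of_exponent_le hu1 (by norm_num)
  have hGu : (u : ℝ) ^ (-((1:ℝ) / 10)) * ((2:ℝ) ^ (-((11:ℝ) / 10)) * (u : ℝ) ^ (-((33:ℝ) / 100)))
      ≤ G P u := by
    unfold G
    rw [← e1]
    exact mul_le_mul_of_nonneg_left k1 (by positivity)
  have hGv : (u : ℝ) ^ (-((1:ℝ) / 10)) * ((2:ℝ) ^ (-((11:ℝ) / 10)) * (u : ℝ) ^ (-((33:ℝ) / 100)))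
      ≤ G P v := by
    unfold G
    rw [← e1]
    exact mul_le_mul k3 k2 (by positivity) (by positivity)
  have hGG := mul_le_mul hGu hGv (by positivity) (G_nonneg P u)
  refine le_trans ?_ (mul_le_mul_of_nonneg_left hGG (by norm_num : (0:ℝ) ≤ 8))
  set a := (u : ℝ) ^ (-((1:ℝ) / 10))
  set b := (u : ℝ) ^ (-((33:ℝ) / 100))
  set c := (2:ℝ) ^ (-((11:ℝ) / 10))
  have ha : 0 < a := by positivity
  have hb : 0 < b := by positivity
  calc 1 / (u : ℝ) ≤ a * b * (a * b) := e3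
    _ = 8 * (1 / 8) * (a * b * (a * b)) := by ring
    _ ≤ 8 * (c * c) * (a * b * (a * b)) := by
        apply mul_le_mul_of_nonneg_right _ (by positivity)
        linarith
    _ = 8 * (a * (c * b) * (a * (c * b))) := by ring

lemma cf_pos {n m : ℕ} (hn : 0 < n) : 0 < cf n m := by
  unfold cf
  exact Nat.div_pos (Nat.le_of_dvd hn (Nat.gcd_dvd_left n m)) (Nat.gcd_pos_of_pos_left _ hn)

lemma cf_mul {n m : ℕ} : cf n m * n.gcd m = n := by
  unfold cf
  exact Nat.div_mul_cancel (Nat.gcd_dvd_left n m)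

lemma cf_mul' {n m : ℕ} : cf m n * n.gcd m = m := by
  unfold cf
  rw [Nat.gcd_comm m n]
  exact Nat.div_mul_cancel (Nat.gcd_dvd_right n m)

lemma Eg_small {P : ℕ} {μ : ℕ → ℝ} {n m : ℕ} (hn : 0 < n) (hm : 0 < m) (hμn : 0 < μ n)
    (hμm : 0 < μ m) (h : Small P μ n m) :
    Eg μ n m ≤ 8 * (G P (cf n m) * G P (cf m n)) * (μ n + μ m) := by
  set u := cf n m with hu
  set v := cf m n with hv
  have hup : 0 < u := cf_pos hn
  have hvp : 0 < v := cf_pos hm
  have hg : 0 < n.gcd m := Nat.gcd_pos_of_pos_left _ hn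
  have hgr : (0:ℝ) < ((n.gcd m : ℕ) : ℝ) := by exact_mod_cast hg
  have hur : (0:ℝ) < (u:ℝ) := by exact_mod_cast hup
  have hvr : (0:ℝ) < (v:ℝ) := by exact_mod_cast hvp
  have hnr : (n : ℝ) = u * ((n.gcd m : ℕ) : ℝ) := by exact_mod_cast (cf_mul (n := n) (m := m)).symm
  have hmr : (m : ℝ) = v * ((n.gcd m : ℕ) : ℝ) := by exact_mod_cast (cf_mul' (n := n) (m := m)).symm
  have g1 : ((n.gcd m : ℕ) : ℝ) * (μ n / n) = μ n / u := by
    rw [hnr]; field_simp
  have g2 : ((n.gcd m : ℕ) : ℝ) * (μ m / m) = μ m / v := by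
    rw [hmr]; field_simp
  have hrn : 0 < μ n / n := div_pos hμn (by exact_mod_cast hn)
  have hrm : 0 < μ m / m := div_pos hμm (by exact_mod_cast hm)
  have E1 : Eg μ n m ≤ μ n / u := by
    unfold Eg
    rw [← g1]
    exact mul_le_mul_of_nonneg_left (min_le_left _ _) hgr.le
  have E2 : Eg μ n m ≤ μ m / v := by
    unfold Eg
    rw [← g2]
    exact mul_le_mul_of_nonneg_left (min_le_right _ _) hgr.le
  have hGG : 0 ≤ G P u * G P v := mul_nonneg (G_nonneg _ _) (G_nonneg _ _)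
  rcases h with h | ⟨h1, h2⟩
  · unfold rat at h
    rcases le_total (μ m / m) (μ n / n) with hc | hc
    · rw [max_eq_left hc, min_eq_right hc, lt_div_iff₀ hrm] at h
      have : Eg μ n m ≤ μ n * (1 / ((u : ℝ) * ((max u v : ℕ) : ℝ) ^ 2)) := by
        have hM : (0:ℝ) < ((max u v : ℕ) : ℝ) := by
          have : (u : ℝ) ≤ ((max u v : ℕ) : ℝ) := by exact_mod_cast le_max_left u v
          linarith
        unfold Eg
        rw [min_eq_right hc]
        have : μ m / m ≤ (μ n / n) / ((max u v : ℕ) : ℝ) ^ 2 := by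
          rw [le_div_iff₀ (by positivity)]
          nlinarith
        calc ((n.gcd m : ℕ) : ℝ) * (μ m / m)
            ≤ ((n.gcd m : ℕ) : ℝ) * ((μ n / n) / ((max u v : ℕ) : ℝ) ^ 2) :=
              mul_le_mul_of_nonneg_left this hgr.le
          _ = (((n.gcd m : ℕ) : ℝ) * (μ n / n)) / ((max u v : ℕ) : ℝ) ^ 2 := by ring
          _ = μ n * (1 / ((u : ℝ) * ((max u v : ℕ) : ℝ) ^ 2)) := by
              rw [g1]; field_simp
      have h3 := one_le_G_a (P := P) hup hvp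
      calc Eg μ n m ≤ μ n * (1 / ((u : ℝ) * ((max u v : ℕ) : ℝ) ^ 2)) := this
        _ ≤ μ n * (G P u * G P v) := mul_le_mul_of_nonneg_left h3 hμn.le
        _ ≤ 8 * (G P u * G P v) * (μ n + μ m) := by nlinarith
    · rw [max_eq_right hc, min_eq_left hc, lt_div_iff₀ hrn] at h
      have : Eg μ n m ≤ μ m * (1 / ((v : ℝ) * ((max v u : ℕ) : ℝ) ^ 2)) := by
        have hM : (0:ℝ) < ((max u v : ℕ) : ℝ) := by
          have : (u : ℝ) ≤ ((max u v : ℕ) : ℝ) := by exact_mod_cast le_max_left u v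
          linarith
        rw [max_comm v u]
        unfold Eg
        rw [min_eq_left hc]
        have : μ n / n ≤ (μ m / m) / ((max u v : ℕ) : ℝ) ^ 2 := by
          rw [le_div_iff₀ (by positivity)]
          nlinarith
        calc ((n.gcd m : ℕ) : ℝ) * (μ n / n)
            ≤ ((n.gcd m : ℕ) : ℝ) * ((μ m / m) / ((max u v : ℕ) : ℝ) ^ 2) :=
              mul_le_mul_of_nonneg_left this hgr.le
          _ = (((n.gcd m : ℕ) : ℝ) * (μ m / m)) / ((max u v : ℕ) : ℝ) ^ 2 := by ring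
          _ = μ m * (1 / ((v : ℝ) * ((max u v : ℕ) : ℝ) ^ 2)) := by
              rw [g2]; field_simp
      have h3 := one_le_G_a (P := P) hvp hup
      calc Eg μ n m ≤ μ m * (1 / ((v : ℝ) * ((max v u : ℕ) : ℝ) ^ 2)) := this
        _ ≤ μ m * (G P v * G P u) := mul_le_mul_of_nonneg_left h3 hμm.le
        _ ≤ 8 * (G P u * G P v) * (μ n + μ m) := by nlinarith
  · rcases le_total v u with hc | hc
    · rw [max_eq_left hc] at h1 h2
      have h3 := one_le_G_b hup hvp hc h1 h2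
      calc Eg μ n m ≤ μ n / u := E1
        _ = μ n * (1 / u) := by ring
        _ ≤ μ n * (8 * (G P u * G P v)) := mul_le_mul_of_nonneg_left h3 hμn.le
        _ ≤ 8 * (G P u * G P v) * (μ n + μ m) := by nlinarith
    · rw [max_eq_right hc] at h1 h2
      have h3 := one_le_G_b hvp hup hc h2 h1
      calc Eg μ n m ≤ μ m / v := E2
        _ = μ m * (1 / v) := by ring
        _ ≤ μ m * (8 * (G P v * G P u)) := mul_le_mul_of_nonneg_left h3 hμm.le
        _ ≤ 8 * (G P u * G P v) * (μ n + μ m) := by nlinarith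

lemma row_bound {P : ℕ} {C : ℝ} (hC : 0 ≤ C)
    (hG : ∀ F : Finset ℕ, (∀ u ∈ F, u ≠ 0) → ∑ u ∈ F, G P u ≤ C)
    (S : Finset ℕ) (hS : ∀ m ∈ S, 0 < m) (n : ℕ) (hn : 0 < n) :
    ∑ m ∈ S, G P (cf n m) * G P (cf m n) ≤ C ^ 2 := by
  classical
  have hinj : Set.InjOn (fun m => (cf n m, cf m n)) (S : Set ℕ) := by
    intro m hm m' hm' h
    simp only [Prod.mk.injEq] at h
    have h1 := cf_mul (n := n) (m := m)
    have h2 := cf_mul' (n := n) (m := m)
    have h3 := cf_mul (n := n) (m := m')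
    have h4 := cf_mul' (n := n) (m := m')
    have hup : 0 < cf n m := cf_pos hn
    rw [← h.1] at h3
    rw [← h.2] at h4
    have hgg : n.gcd m = n.gcd m' := Nat.eq_of_mul_eq_mul_left hup (h1.trans h3.symm)
    rw [← h2, ← h4, hgg]
  calc ∑ m ∈ S, G P (cf n m) * G P (cf m n)
      = ∑ m ∈ S, (fun z : ℕ × ℕ => G P z.1 * G P z.2) (cf n m, cf m n) := rfl
    _ = ∑ z ∈ S.image (fun m => (cf n m, cf m n)), G P z.1 * G P z.2 := by
        rw [Finset.sum_image hinj]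
    _ ≤ ∑ z ∈ (S.image (fun m => cf n m)) ×ˢ (S.image (fun m => cf m n)), G P z.1 * G P z.2 := by
        apply Finset.sum_le_sum_of_subset_of_nonneg
        · intro z hz
          rw [Finset.mem_image] at hz
          obtain ⟨m, hm, rfl⟩ := hz
          exact Finset.mem_product.2 ⟨Finset.mem_image_of_mem (fun m => cf n m) hm,
            Finset.mem_image_of_mem (fun m => cf m n) hm⟩
        · intro z _ _
          exact mul_nonneg (G_nonneg _ _) (G_nonneg _ _)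
    _ = (∑ u ∈ S.image (fun m => cf n m), G P u) * ∑ v ∈ S.image (fun m => cf m n), G P v := by
        rw [Finset.sum_product, Finset.sum_mul_sum]
    _ ≤ C * C := by
        apply mul_le_mul (hG _ _) (hG _ _) (Finset.sum_nonneg fun _ _ => G_nonneg _ _) hC
        · intro u hu
          rw [Finset.mem_image] at hu
          obtain ⟨m, hm, rfl⟩ := hu
          exact (cf_pos hn).ne'
        · intro u hu
          rw [Finset.mem_image] at hu
          obtain ⟨m, hm, rfl⟩ := hu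
          exact (cf_pos (hS m hm)).ne'
    _ = C ^ 2 := by ring

end ItS66

open ItS66 in
open Classical in
theorem pr_S66 : S66 := by
  intro P
  obtain ⟨C, hC, hG⟩ := G_bound P
  refine ⟨16 * C ^ 2 + 1, by positivity, fun S μ hS => ?_⟩
  have hpos : ∀ m ∈ S, 0 < m := fun m hm => (hS m hm).1
  have hμ : 0 ≤ ∑ n ∈ S, μ n := Finset.sum_nonneg fun n hn => (hS n hn).2.le
  calc ∑ z ∈ (S ×ˢ S).filter (fun z => z.1 ≠ z.2 ∧ Small P μ z.1 z.2), Eg μ z.1 z.2
      ≤ ∑ z ∈ (S ×ˢ S).filter (fun z => z.1 ≠ z.2 ∧ Small P μ z.1 z.2),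
        8 * (G P (cf z.1 z.2) * G P (cf z.2 z.1)) * (μ z.1 + μ z.2) := by
        apply Finset.sum_le_sum
        intro z hz
        rw [Finset.mem_filter, Finset.mem_product] at hz
        exact Eg_small (hpos _ hz.1.1) (hpos _ hz.1.2) (hS _ hz.1.1).2 (hS _ hz.1.2).2 hz.2.2
    _ ≤ ∑ z ∈ S ×ˢ S, 8 * (G P (cf z.1 z.2) * G P (cf z.2 z.1)) * (μ z.1 + μ z.2) := by
        apply Finset.sum_le_sum_of_subset_of_nonneg (Finset.filter_subset _ _)
        intro z hz _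
        rw [Finset.mem_product] at hz
        have h1 := (hS _ hz.1).2
        have h2 := (hS _ hz.2).2
        have h3 := G_nonneg P (cf z.1 z.2)
        have h4 := G_nonneg P (cf z.2 z.1)
        positivity
    _ = 8 * (∑ n ∈ S, μ n * ∑ m ∈ S, G P (cf n m) * G P (cf m n)) +
        8 * (∑ m ∈ S, μ m * ∑ n ∈ S, G P (cf m n) * G P (cf n m)) := by
        have e0 : ∑ z ∈ S ×ˢ S, 8 * (G P (cf z.1 z.2) * G P (cf z.2 z.1)) * (μ z.1 + μ z.2) =
            ∑ n ∈ S, ∑ m ∈ S, (8 * (μ n * (G P (cf n m) * G P (cf m n))) +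
              8 * (μ m * (G P (cf m n) * G P (cf n m)))) := by
          rw [Finset.sum_product]
          apply Finset.sum_congr rfl
          intro n _
          apply Finset.sum_congr rfl
          intro m _
          ring
        have e1 : ∑ n ∈ S, μ n * ∑ m ∈ S, G P (cf n m) * G P (cf m n) =
            ∑ n ∈ S, ∑ m ∈ S, μ n * (G P (cf n m) * G P (cf m n)) := by
          apply Finset.sum_congr rfl
          intro n _
          rw [Finset.mul_sum]
        have e3 : ∑ n ∈ S, ∑ m ∈ S, 8 * (μ m * (G P (cf m n) * G P (cf n m))) =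
            8 * ∑ n ∈ S, ∑ m ∈ S, μ n * (G P (cf n m) * G P (cf m n)) := by
          rw [Finset.sum_comm, Finset.mul_sum]
          apply Finset.sum_congr rfl
          intro n _
          rw [Finset.mul_sum]
        have e4 : ∑ n ∈ S, ∑ m ∈ S, 8 * (μ n * (G P (cf n m) * G P (cf m n))) =
            8 * ∑ n ∈ S, ∑ m ∈ S, μ n * (G P (cf n m) * G P (cf m n)) := by
          rw [Finset.mul_sum]
          apply Finset.sum_congr rfl
          intro n _
          rw [Finset.mul_sum]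
        rw [e0, e1]
        simp only [Finset.sum_add_distrib]
        rw [e3, e4]
    _ ≤ 8 * (∑ n ∈ S, μ n * C ^ 2) + 8 * (∑ m ∈ S, μ m * C ^ 2) := by
        have : ∑ n ∈ S, μ n * ∑ m ∈ S, G P (cf n m) * G P (cf m n) ≤ ∑ n ∈ S, μ n * C ^ 2 := by
          apply Finset.sum_le_sum
          intro n hn
          exact mul_le_mul_of_nonneg_left (row_bound hC hG S hpos n (hpos n hn)) (hS n hn).2.le
        linarith
    _ = 16 * C ^ 2 * ∑ n ∈ S, μ n := by
        rw [← Finset.sum_mul]; ring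
    _ ≤ (16 * C ^ 2 + 1) * ∑ n ∈ S, μ n := by nlinarith

end Pool.Agent.MP_0863b8.A
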