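import Pool.Agent.Work.MP_0863b8_nt.A.Stmts

/-!
MP_0863b8_nt, block A, item S67: pull back of label lists.
-/

set_option autoImplicit false

namespace Pool.Agent.MP_0863b8.A

namespace ItS67

theorem pull_point (κ0 θ W : ℝ) (q D : ℕ) (ρ : ℚ) (hq : 2 ≤ q) (hD : 1 ≤ D)
    (h1 : 1 / κ0 ≤ W / q / D)
    (h2 : (dn (D, ρ) : ℝ) ≤ (W / q / D) ^ ((1:ℝ) / 10))
    (h3 : |q * θ - (ρ : ℝ)| * (W / q) ≤ (W / q / D) ^ ((1:ℝ) / 10)) :
    1 ≤ q * D ∧ 1 / κ0 ≤ W / ((q * D : ℕ) : ℝ) ∧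
      (dn (q * D, ρ / (q : ℚ)) : ℝ) ≤ (W / ((q * D : ℕ) : ℝ)) ^ ((1:ℝ) / 10) ∧
      |θ - ((ρ / (q : ℚ) : ℚ) : ℝ)| * W ≤ (W / ((q * D : ℕ) : ℝ)) ^ ((1:ℝ) / 10) := by
  have hq0 : (0 : ℝ) < q := by
    have : (2 : ℝ) ≤ q := by exact_mod_cast hq
    linarith
  have hqQ : (q : ℚ) ≠ 0 := by
    have : q ≠ 0 := by omega
    exact_mod_cast this
  have e : W / ((q * D : ℕ) : ℝ) = W / q / D := by
    push_cast
    rw [div_div]
  have e2 : dn (q * D, ρ / (q : ℚ)) = dn (D, ρ) := by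
    unfold dn
    congr 1
    push_cast
    field_simp
  have e3 : |θ - ((ρ / (q : ℚ) : ℚ) : ℝ)| * W = |q * θ - (ρ : ℝ)| * (W / q) := by
    have : θ - ((ρ / (q : ℚ) : ℚ) : ℝ) = (q * θ - (ρ : ℝ)) / q := by
      push_cast
      field_simp
    rw [this, abs_div, abs_of_pos hq0]
    ring
  refine ⟨?_, ?_, ?_, ?_⟩
  · exact Nat.one_le_iff_ne_zero.mpr (Nat.mul_ne_zero (by omega) (by omega))
  · rw [e]; exact h1
  · rw [e, e2]; exact h2
  · rw [e, e3]; exact h3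

end ItS67

open ItS67 in
theorem pr_S67 : S67 := by
  intro κ0 θ W q L hκ hW hq hL
  obtain ⟨hA, hB, hC⟩ := hL
  have hA' : ∀ x ∈ pull q L, 1 ≤ x.1 ∧ 1 / κ0 ≤ W / x.1 ∧
      (dn x : ℝ) ≤ (W / x.1) ^ ((1:ℝ) / 10) ∧
      |θ - (x.2 : ℝ)| * W ≤ (W / x.1) ^ ((1:ℝ) / 10) := by
    intro x hx
    unfold pull at hx
    rw [Finset.mem_image] at hx
    obtain ⟨y, hy, rfl⟩ := hx
    obtain ⟨a, b, c, d⟩ := hA y hy
    exact pull_point κ0 θ W q y.1 y.2 hq a b c d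
  have hB' : ∀ x ∈ pull q L, ∀ y ∈ pull q L, x.1 ∣ y.1 ∨ y.1 ∣ x.1 := by
    intro x hx y hy
    unfold pull at hx hy
    rw [Finset.mem_image] at hx hy
    obtain ⟨x, hx, rfl⟩ := hx
    obtain ⟨y, hy, rfl⟩ := hy
    rcases hB x hx y hy with h | h
    · exact Or.inl (Nat.mul_dvd_mul_left q h)
    · exact Or.inr (Nat.mul_dvd_mul_left q h)
  have hC' : ∀ x ∈ pull q L, ∀ y ∈ pull q L, x.1 = y.1 → x = y := by
    intro x hx y hy h
    unfold pull at hx hy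
    rw [Finset.mem_image] at hx hy
    obtain ⟨x, hx, rfl⟩ := hx
    obtain ⟨y, hy, rfl⟩ := hy
    have h1 : x.1 = y.1 := Nat.eq_of_mul_eq_mul_left (by omega : 0 < q) h
    rw [hC x hx y hy h1]
  refine ⟨⟨hA', hB', hC'⟩, ?_⟩
  intro ρ hκW hT
  have hno : ∀ x ∈ pull q L, x.1 ≠ 1 := by
    intro x hx h
    unfold pull at hx
    rw [Finset.mem_image] at hx
    obtain ⟨y, hy, rfl⟩ := hx
    have h1 : q * y.1 = 1 := h
    have h2 := Nat.eq_one_of_mul_eq_one_right h1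
    omega
  refine ⟨?_, ?_, ?_⟩
  · intro x hx
    rw [Finset.mem_insert] at hx
    rcases hx with rfl | hx
    · refine ⟨le_refl 1, ?_, ?_, ?_⟩
      · simpa using hκW
      · have h1 : dn (1, ρ) = ρ.den := by
          unfold dn
          simp
        rw [h1]
        simpa using hT.1
      · simpa using hT.2
    · exact hA' x hx
  · intro x hx y hy
    rw [Finset.mem_insert] at hx hy
    rcases hx with rfl | hx
    · exact Or.inl (one_dvd _)
    · rcases hy with rfl | hy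
      · exact Or.inr (one_dvd _)
      · exact hB' x hx y hy
  · intro x hx y hy h
    rw [Finset.mem_insert] at hx hy
    rcases hx with rfl | hx
    · rcases hy with rfl | hy
      · rfl
      · exact absurd h.symm (hno y hy)
    · rcases hy with rfl | hy
      · exact absurd h (hno x hx)
      · exact hC' x hx y hy h

end Pool.Agent.MP_0863b8.A
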