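import Pool.Agent.Work.MP_0863b8_nt.A.Stmts

/-!
MP_0863b8_nt, block A, item S68: pull back of kill sets.
-/

set_option autoImplicit false

namespace Pool.Agent.MP_0863b8.A

namespace ItS68

theorem scale {a : ℝ} {q : ℕ} (D : ℕ) (hq : 0 < q) (_ha : 0 < a) :
    (1 / ((q : ℝ) * a)) / (D : ℝ) = (1 / a) / ((q * D : ℕ) : ℝ) := by
  have hq' : (q : ℝ) ≠ 0 := by exact_mod_cast hq.ne'
  push_cast
  rw [div_div, div_div]
  congr 1
  ring

end ItS68

theorem pr_S68 : S68 := by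
  intro P C6 μ μ' Lab Lab' q m m' v r hq hμ hmm hμ' hsub hcov hK hSm
  obtain ⟨hvm, x, hx, ⟨hv1, hpr, hy⟩, s, t, hco, hts, hdv⟩ := hK
  have hcop : IsCoprime (q : ℤ) (v : ℤ) := by
    rw [Int.isCoprime_iff_gcd_eq_one]
    have h1 : Nat.Coprime q v :=
      (Nat.Prime.coprime_iff_not_dvd hq).2 (fun h => lt_irrefl _ (hSm q hq h))
    simpa using h1
  obtain ⟨a, b, hab⟩ := hcop
  have hcop : IsCoprime (q : ℤ) (v : ℤ) := ⟨a, b, hab⟩
  have hqr : (q : ℤ) * (a * r) = r - v * (b * r) := by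
    linear_combination r * hab
  refine ⟨a * r, ⟨hvm.trans hmm, (q * x.1, x.2 / (q : ℚ)), ?_, ⟨hv1, ?_, ?_⟩, ?_⟩, ?_⟩
  · exact hsub (Finset.mem_image_of_mem _ hx)
  · intro p hp hpv
    have h1 := hpr p hp hpv
    refine ⟨h1.1, ?_⟩
    have h2 := h1.2
    rw [hμ', ItS68.scale x.1 hq.pos hμ] at h2
    exact h2
  · intro y hyL hdvd hne
    rcases hcov y hyL with h | h
    · obtain ⟨y', hy', rfl⟩ := Finset.mem_image.1 h
      have h3 : x.1 ∣ y'.1 := Nat.dvd_of_mul_dvd_mul_left hq.pos hdvd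
      have h4 : y'.2 ≠ x.2 := fun h5 => hne (by simp [h5])
      have h5 := hy y' hy' h3 h4
      rw [hμ', ItS68.scale y'.1 hq.pos hμ] at h5
      exact h5
    · exfalso
      have h6 : q * x.1 ∣ 1 := by simpa [h] using hdvd
      have h7 : q ∣ 1 := (Dvd.intro _ rfl).trans h6
      exact hq.one_lt.ne' (Nat.dvd_one.1 h7)
  · refine ⟨s * q, t, hco.mul_left hcop, ?_, ?_⟩
    · have hq' : (q : ℚ) ≠ 0 := by exact_mod_cast hq.ne_zero
      push_cast
      rw [hts]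
      field_simp
    · have h8 : s * (q : ℤ) * (a * r) + t = (s * r + t) - v * (s * (b * r)) := by
        linear_combination s * hqr
      rw [h8]
      exact dvd_sub hdv (dvd_mul_right _ _)
  · rw [hqr]
    exact (Int.modEq_iff_dvd.2 ⟨-(b * r), by ring⟩)

end Pool.Agent.MP_0863b8.A
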