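import Pool.Agent.Work.MP_0863b8_nt.A.Stmts

/-!
MP_0863b8_nt, block A, item TU: tiny labels are unique.
-/

set_option autoImplicit false

namespace Pool.Agent.MP_0863b8.A

namespace ItTU

/-- different rationals are at distance at least `1 / (d d')` -/
lemma sep (ρ ρ' : ℚ) (h : ρ ≠ ρ') :
    1 ≤ |(ρ : ℝ) - (ρ' : ℝ)| * ((ρ.den : ℝ) * (ρ'.den : ℝ)) := by
  have h1 : (ρ : ℝ) = (ρ.num : ℝ) / (ρ.den : ℝ) := by exact_mod_cast (Rat.num_div_den ρ).symm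
  have h2 : (ρ' : ℝ) = (ρ'.num : ℝ) / (ρ'.den : ℝ) := by exact_mod_cast (Rat.num_div_den ρ').symm
  have hd : (0 : ℝ) < (ρ.den : ℝ) := by exact_mod_cast ρ.den_pos
  have hd' : (0 : ℝ) < (ρ'.den : ℝ) := by exact_mod_cast ρ'.den_pos
  have h3 : ((ρ : ℝ) - (ρ' : ℝ)) * ((ρ.den : ℝ) * (ρ'.den : ℝ)) =
      ((ρ.num * ρ'.den - ρ'.num * ρ.den : ℤ) : ℝ) := by
    rw [h1, h2]
    push_cast
    field_simp
  have h4 : (ρ.num * ρ'.den - ρ'.num * ρ.den : ℤ) ≠ 0 := by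
    intro h0
    rw [h0, Int.cast_zero] at h3
    rcases mul_eq_zero.1 h3 with h5 | h5
    · apply h
      have h6 : (ρ : ℝ) = (ρ' : ℝ) := by linarith
      exact_mod_cast h6
    · exact absurd h5 (mul_pos hd hd').ne'
  have h5 : (1 : ℝ) ≤ |((ρ.num * ρ'.den - ρ'.num * ρ.den : ℤ) : ℝ)| := by
    rw [← Int.cast_abs]
    exact_mod_cast Int.one_le_abs h4
  rw [← h3, abs_mul, abs_of_pos (mul_pos hd hd')] at h5
  exact h5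

end ItTU

theorem pr_TU : TinyUniq := by
  refine ⟨3, by norm_num, ?_⟩
  rintro θ W ρ ρ' hW ⟨h1, h2⟩ ⟨h3, h4⟩
  by_contra hne
  have hs := ItTU.sep ρ ρ' hne
  have hW0 : 0 < W := by linarith
  obtain ⟨E, hE⟩ : ∃ E : ℝ, E = W ^ ((1:ℝ) / 10) := ⟨_, rfl⟩
  have hE0 : 0 < E := by
    rw [hE]
    exact Real.rpow_pos_of_pos hW0 _
  have hE10 : E ^ 10 = W := by
    rw [hE, ← Real.rpow_natCast, ← Real.rpow_mul hW0.le]
    norm_num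
  rw [← hE] at h1 h2 h3 h4
  have hd : (0 : ℝ) < (ρ.den : ℝ) := by exact_mod_cast ρ.den_pos
  have hd' : (0 : ℝ) < (ρ'.den : ℝ) := by exact_mod_cast ρ'.den_pos
  have h5 : |(ρ : ℝ) - (ρ' : ℝ)| * W ≤ 2 * E := by
    have h6 : |(ρ : ℝ) - (ρ' : ℝ)| ≤ |θ - (ρ : ℝ)| + |θ - (ρ' : ℝ)| := by
      have h7 := abs_sub_abs_le_abs_sub (θ - (ρ' : ℝ)) (θ - (ρ : ℝ))
      calc |(ρ : ℝ) - (ρ' : ℝ)| = |(θ - (ρ' : ℝ)) - (θ - (ρ : ℝ))| := by ring_nf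
        _ ≤ |θ - (ρ' : ℝ)| + |θ - (ρ : ℝ)| := abs_sub _ _
        _ = _ := add_comm _ _
    calc |(ρ : ℝ) - (ρ' : ℝ)| * W ≤ (|θ - (ρ : ℝ)| + |θ - (ρ' : ℝ)|) * W :=
          mul_le_mul_of_nonneg_right h6 hW0.le
      _ ≤ 2 * E := by linarith
  have h6 : (ρ.den : ℝ) * (ρ'.den : ℝ) ≤ E * E := mul_le_mul h1 h3 hd'.le hE0.le
  have h7 : W ≤ 2 * E ^ 3 := by
    calc W = 1 * W := (one_mul W).symm
      _ ≤ (|(ρ : ℝ) - (ρ' : ℝ)| * ((ρ.den : ℝ) * (ρ'.den : ℝ))) * W :=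
          mul_le_mul_of_nonneg_right hs hW0.le
      _ = (|(ρ : ℝ) - (ρ' : ℝ)| * W) * ((ρ.den : ℝ) * (ρ'.den : ℝ)) := by ring
      _ ≤ (2 * E) * (E * E) := mul_le_mul h5 h6 (by positivity) (by positivity)
      _ = 2 * E ^ 3 := by ring
  have h8 : E ^ 7 ≤ 2 := by
    have h9 : E ^ 3 * E ^ 7 ≤ E ^ 3 * 2 := by
      calc E ^ 3 * E ^ 7 = E ^ 10 := by ring
        _ = W := hE10
        _ ≤ 2 * E ^ 3 := h7
        _ = E ^ 3 * 2 := by ring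
    exact le_of_mul_le_mul_left h9 (by positivity)
  have h9 : W ^ 7 ≤ 2 ^ 10 := by
    calc W ^ 7 = (E ^ 7) ^ 10 := by rw [← hE10]; ring
      _ ≤ 2 ^ 10 := pow_le_pow_left₀ (by positivity) h8 10
  have h10 : (3:ℝ) ^ 7 ≤ W ^ 7 := pow_le_pow_left₀ (by norm_num) hW 7
  norm_num at h9 h10
  linarith

end Pool.Agent.MP_0863b8.A
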