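import Pool.Agent.Work.MP_0863b8_nt.A.Defs

/-!
MP_0863b8_nt, block A: statements of the items (sections 6.1, 6.2, 6.3, 6.5, 6.6 of `PROOF.md`).
-/

set_option autoImplicit false

namespace Pool.Agent.MP_0863b8.A

open MeasureTheory

/-- the ratio of the radii -/
noncomputable def rat (μ : ℕ → ℝ) (n m : ℕ) : ℝ :=
  max (μ n / n) (μ m / m) / min (μ n / n) (μ m / m)

/-- the `P`-rough part -/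
noncomputable def rgh (P u : ℕ) : ℕ :=
  ∏ p ∈ u.primeFactors.filter (fun p => P < p), p ^ u.factorization p

/-- pairs which need not be killed (6.5) -/
def Small (P : ℕ) (μ : ℕ → ℝ) (n m : ℕ) : Prop :=
  ((max (cf n m) (cf m n) : ℕ) : ℝ) ^ 2 < rat μ n m ∨
  ((rgh P (cf n m) : ℝ) ≤ 2 * ((max (cf n m) (cf m n) : ℕ) : ℝ) ^ ((3:ℝ) / 10) ∧
    (rgh P (cf m n) : ℝ) ≤ 2 * ((max (cf n m) (cf m n) : ℕ) : ℝ) ^ ((3:ℝ) / 10))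

/-- tiny labels (6.2) -/
def Tiny (θ W : ℝ) (ρ : ℚ) : Prop :=
  (ρ.den : ℝ) ≤ W ^ ((1:ℝ) / 10) ∧ |θ - (ρ : ℝ)| * W ≤ W ^ ((1:ℝ) / 10)

/-- OV: overlaps (from `OverlapStmt`, `SingleStmt`) -/
def OvStmt : Prop :=
  ∀ (θ : ℝ) (μ : ℕ → ℝ) (K : ℕ → ℕ → ℤ → Prop) (q n m : ℕ), 0 < n → 0 < m → 0 < μ n → 0 < μ m →
    R.ov θ μ K q n n ≤ 6 * μ n ∧
    (n ≠ m → 1 / 4 ≤ Kd μ n m → R.ov θ μ K q n m ≤ 48 * μ n * μ m) ∧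
    (n ≠ m → Kd μ n m < 1 / 4 → R.ov θ μ K q n m ≤ 6 * Eg μ n m) ∧
    (¬ Meet θ μ n m → R.ov θ μ K q n m = 0)

/-- S61: consequences of an explaining label (6.1) -/
def S61 : Prop :=
  ∃ κ1 : ℝ, 0 < κ1 ∧ ∀ (θ : ℝ) (μ : ℕ → ℝ) (n m b : ℕ) (c : ℤ), 0 < n → 0 < m → n ≠ m →
    0 < μ n → 0 < μ m → Kd μ n m ≤ κ1 → Lbl θ μ n m b c → ∀ (y : ℝ) (k l : ℤ),
    |(n:ℝ) * y - θ - k| < μ n → |(m:ℝ) * y - θ - l| < μ m →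
      (cf n m : ℤ) ∣ b * k + c ∧ (cf m n : ℤ) ∣ b * l + c ∧
      (b : ℝ) ≤ ((max (cf n m) (cf m n) : ℕ) : ℝ) ∧
      |θ - c / b| ≤ 2 * Kd μ n m

/-- S62: an explaining label is a tiny label at both ends (6.2) -/
def S62 : Prop :=
  ∃ κ1 : ℝ, 0 < κ1 ∧ ∀ (θ : ℝ) (μ : ℕ → ℝ) (n m b : ℕ) (c : ℤ), 0 < n → 0 < m → n ≠ m →
    0 < μ n → 0 < μ m → Kd μ n m ≤ κ1 → Lbl θ μ n m b c →
    max (μ n / n) (μ m / m) ≤ (Kd μ n m) ^ (-((1:ℝ) / 100)) * min (μ n / n) (μ m / m) →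
      Tiny θ (1 / μ n) ((c : ℚ) / b) ∧ Tiny θ (1 / μ m) ((c : ℚ) / b) ∧
      1 / Kd μ n m ≤ 1 / μ n ∧ 1 / Kd μ n m ≤ 1 / μ m

/-- TU: tiny labels are unique -/
def TinyUniq : Prop :=
  ∃ W0 : ℝ, 1 ≤ W0 ∧ ∀ (θ W : ℝ) (ρ ρ' : ℚ), W0 ≤ W → Tiny θ W ρ → Tiny θ W ρ' → ρ = ρ'

/-- S63: spacing of the labels (6.3) -/
def S63 : Prop :=
  ∃ κ1 : ℝ, 0 < κ1 ∧ ∀ (κ0 θ W : ℝ) (L : Finset (ℕ × ℚ)), 0 < κ0 → κ0 ≤ κ1 → 0 < W →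
    LabOK κ0 θ W L → ∀ x ∈ L, ∀ y ∈ L, x.1 ∣ y.1 → x.2 ≠ y.2 →
      (W / y.1) ^ ((1:ℝ) / 3) ≤ max (dn x : ℝ) (|θ - (x.2 : ℝ)| * W)

/-- S65: explained pairs are killed or small (6.5) -/
def S65 : Prop :=
  ∀ (P : ℕ) (C6 : ℝ), 0 < C6 → ∃ κ1 : ℝ, 0 < κ1 ∧ ∀ (κ0 θ : ℝ) (μ : ℕ → ℝ)
    (Lab : ℕ → Finset (ℕ × ℚ)) (n m q1 b : ℕ) (c : ℤ), 0 < κ0 → κ0 ≤ κ1 → 0 < n → 0 < m →
    n ≠ m → 0 < μ n → 0 < μ m → LabOK κ0 θ (1 / μ n) (Lab n) → LabOK κ0 θ (1 / μ m) (Lab m) →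
    Kd μ n m ≤ κ0 → Lbl θ μ n m b c → (1, (c : ℚ) / b) ∈ Lab n → (1, (c : ℚ) / b) ∈ Lab m →
    (∀ p : ℕ, p.Prime → p ∣ cf n m * cf m n → p < q1 ∧ (p : ℝ) ≤ (1 / μ n) ^ C6 ∧
      (p : ℝ) ≤ (1 / μ m) ^ C6) →
    R.ov θ μ (Kof P C6 μ Lab) q1 n m = 0 ∨ Small P μ n m

open Classical in
/-- S66: the small pairs have bounded energy (6.6) -/
def S66 : Prop :=
  ∀ P : ℕ, ∃ C5 : ℝ, 0 < C5 ∧ ∀ (S : Finset ℕ) (μ : ℕ → ℝ), (∀ n ∈ S, 0 < n ∧ 0 < μ n) →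
    ∑ z ∈ (S ×ˢ S).filter (fun z => z.1 ≠ z.2 ∧ Small P μ z.1 z.2), Eg μ z.1 z.2 ≤
      C5 * ∑ n ∈ S, μ n

/-- pull back of a label list of the space of factor `q` -/
def pull (q : ℕ) (L : Finset (ℕ × ℚ)) : Finset (ℕ × ℚ) :=
  L.image (fun x => (q * x.1, x.2 / (q : ℚ)))

/-- S67: pull back of label lists -/
def S67 : Prop :=
  ∀ (κ0 θ W : ℝ) (q : ℕ) (L : Finset (ℕ × ℚ)), 0 < κ0 → 0 < W → 2 ≤ q →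
    LabOK κ0 (q * θ) (W / q) L →
    LabOK κ0 θ W (pull q L) ∧
    ∀ ρ : ℚ, 1 / κ0 ≤ W → Tiny θ W ρ → LabOK κ0 θ W (insert (1, ρ) (pull q L))

/-- S68: pull back of kill sets.  `m = f m'`, the list at `m` is the pull back of the list of `m'`
together with labels with `D = 1` -/
def S68 : Prop :=
  ∀ (P : ℕ) (C6 : ℝ) (μ μ' : ℕ → ℝ) (Lab Lab' : ℕ → Finset (ℕ × ℚ)) (q m m' v : ℕ) (r : ℤ),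
    q.Prime → 0 < μ m → m' ∣ m → μ' m' = q * μ m → pull q (Lab' m') ⊆ Lab m →
    (∀ x ∈ Lab m, x ∈ pull q (Lab' m') ∨ x.1 = 1) →
    Kof P C6 μ' Lab' m' v r → R.Sm q v →
    ∃ r0 : ℤ, Kof P C6 μ Lab m v r0 ∧ r ≡ (q : ℤ) * r0 [ZMOD (v : ℤ)]

end Pool.Agent.MP_0863b8.A
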